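import Pool.Agent.Lib.PR95.Kit

/-! Two points in one strip give a periodic access. -/

set_option autoImplicit false

open Filter Topology Set Metric Complex Bornology N62a1eb23
open scoped Real

namespace Pool.Agent.Lib.PR95

open Pool.Agent.Lib.MP_c35c17_an

namespace ACC

variable {D : Data} {X : ℝ} {H : ℂ → ℂ}

theorem inv (h : D.Back X H) (p : ℕ) {w : ℂ} (hw : w ∈ D.Nb D.L D.z) :
    D.f^[p * D.L] (H^[p] w) = w := by
  induction p with
  | zero => simp
  | succ p ih =>
    rw [Function.iterate_succ_apply', Nat.succ_mul, ← D.f_iter_add, h.inv _ (h.maps.iterate p hw), ih]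

theorem left (h : D.Back X H) (p : ℕ) {w : ℂ}
    (hw : ∀ i < p, X ^ D.L * ‖D.f^[i * D.L] w - D.z‖ < Real.exp (-(3 * X ^ 3))) :
    H^[p] (D.f^[p * D.L] w) = w := by
  induction p with
  | zero => simp
  | succ p ih =>
    rw [Function.iterate_succ_apply, Nat.succ_mul, add_comm, ← D.f_iter_add,
      h.left _ (hw p p.lt_succ_self), ih fun i hi => hw i (hi.trans p.lt_succ_self)]

theorem contr (hX : D.Big X) (h : D.Back X H) (j : ℕ) {w : ℂ}
    (hw : ‖w - D.z‖ < Real.exp (-(3 * X ^ 3))) :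
    (1 + 1 / (2 * X)) ^ j * ‖H^[j] w - D.z‖ ≤ ‖w - D.z‖ := by
  have h1 : (1 : ℝ) ≤ 1 + 1 / (2 * X) := le_add_of_nonneg_right (by have := hX.big; positivity)
  induction j with
  | zero => simp
  | succ j ih =>
    have h2 : ‖H^[j] w - D.z‖ < Real.exp (-(3 * X ^ 3)) :=
      ((le_mul_of_one_le_left (norm_nonneg _) (one_le_pow₀ h1)).trans ih).trans_lt hw
    rw [Function.iterate_succ_apply', pow_succ, mul_assoc]
    exact (mul_le_mul_of_nonneg_left (h.contr _ (mem_ball_iff_norm.mpr h2)) (by positivity)).trans ih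

/-- The fixed point of the affine contraction. -/
theorem fixed {τ a b : ℂ} {p : ℕ} (h : D.Pair X τ a b p) {M : ℝ} (hM : M = D.d ^ p) :
    2 ≤ M ∧ ∃ ν : ℝ, |b.im - ν| ≤ 13 ∧ (τ * exp (ν * I)) ^ D.n ^ (p * D.L) = τ * exp (ν * I) ∧
      ν * I + (b - ν * I) * (1 / M : ℝ) = a := by
  have hM2 : 2 ≤ M := hM ▸ D.two_le_d.trans (le_self_pow₀ (by linarith [D.two_le_d]) h.pos.ne')
  have hMe : M = (D.n : ℝ) ^ (p * D.L) := by rw [hM, Data.d, ← pow_mul, mul_comm]
  have hMc : (M : ℂ) = (D.n : ℂ) ^ (p * D.L) := by rw [hMe]; push_cast; rfl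
  have h1 := h.orb
  rw [D.B_iter h.unit h.ha.1.1] at h1
  obtain ⟨h2, h3, -⟩ := D.B_inj (by rw [norm_pow, h.unit, one_pow])
    (by rw [D.np_mul_re]; exact mul_pos (D.np_pos _) h.ha.1.1) h.unit h.hb.1.1 h1
  rw [D.np_mul_re, ← hMe] at h3
  rw [← hMc] at h2
  have hM1 : (M : ℂ) - 1 ≠ 0 := by exact_mod_cast (by linarith : M - 1 ≠ 0)
  have hM0 : (M : ℂ) ≠ 0 := by exact_mod_cast (by linarith : M ≠ 0)
  have h4 : (((M * a.im - b.im) / (M - 1) : ℝ) : ℂ) * I * (M - 1) = M * a - b := by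
    push_cast
    rw [mul_right_comm, div_mul_cancel₀ _ hM1]
    apply Complex.ext <;> simp [h3]
  refine ⟨hM2, (M * a.im - b.im) / (M - 1), ?_, ?_, ?_⟩
  · have h5 := h.ha.2
    have h6 := h.hb.2
    simp only [mem_preimage, mem_Ioo] at h5 h6
    have h7 := Real.pi_lt_d2
    have h8 : (M * a.im - b.im) / (M - 1) ≤ 2 * π := by
      rw [div_le_iff₀ (by linarith)]
      nlinarith
    have h9 : -π ≤ (M * a.im - b.im) / (M - 1) := by
      rw [le_div_iff₀ (by linarith)]
      nlinarith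
    rw [abs_le]
    constructor <;> linarith
  · generalize (((M * a.im - b.im) / (M - 1) : ℝ) : ℂ) * I = ν at h4
    rw [mul_pow, ← exp_nat_mul, Nat.cast_pow, ← hMc, show (M : ℂ) * ν = M * a + (ν - b) by
      linear_combination h4, exp_add, ← mul_assoc, h2, mul_assoc, ← exp_add, add_sub_cancel]
  · generalize (((M * a.im - b.im) / (M - 1) : ℝ) : ℂ) * I = ν at h4
    push_cast
    field_simp
    linear_combination h4

end ACC

open ACC in
theorem st_ACC (hUQ : St_UQ) : St_ACC := by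
  intro D X H τ a b p hX hH h
  obtain ⟨hM2, ν, h1, h2, h3⟩ := fixed h rfl
  set M := D.d ^ p with hM
  have hM0 : 0 < M := by linarith
  have hMc : ((M : ℝ) : ℂ) = (D.n : ℂ) ^ (p * D.L) := by
    rw [hM, Data.d, ← pow_mul, mul_comm]; push_cast; rfl
  set σ := τ * exp (ν * I) with hσ
  have hσ1 : ‖σ‖ = 1 := Data.norm_rot h.unit ν
  have hb : (b.re : ℂ) + (b.im - ν : ℝ) * I = b - ν * I := by
    push_cast
    linear_combination re_add_im b
  refine ⟨σ, b.im - ν, hσ1, h2, h1, ?_⟩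
  rw [hb]
  set γ : ℝ → ℂ := fun s => D.B σ ((b - ν * I) * s) with hγ
  have hre : ∀ s : ℝ, 0 < s → 0 < ((b - ν * I) * s).re := fun s hs => by
    simpa using mul_pos h.hb.1.1 hs
  have hγτ : ∀ s : ℝ, γ s = D.B τ (ν * I + (b - ν * I) * s) := fun s => by rw [D.B_add]
  have hγ1 : γ 1 = D.B τ b := by rw [hγτ]; simp
  have hit : ∀ s : ℝ, 0 < s → D.f^[p * D.L] (γ (s / M)) = γ s := fun s hs => by
    simp only [hγ]
    rw [D.B_iter hσ1 (hre _ (div_pos hs hM0)), h2, ← hMc]
    congr 1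
    have : (M : ℂ) ≠ 0 := by exact_mod_cast hM0.ne'
    push_cast
    field_simp
  have hcont : ∀ s : Set ℝ, s ⊆ Ioi 0 → ContinuousOn γ s := fun s hs =>
    D.B_cont_comp hσ1 (by fun_prop) fun x hx => hre x (hs hx)
  have key : ∀ j : ℕ, (∀ s ∈ Icc (1 / M ^ (j + 1)) (1 / M ^ j), γ s ∈ D.Nb D.L D.z) ∧
      H^[p] (γ (1 / M ^ j)) = γ (1 / M ^ (j + 1)) := fun j => by
    induction j with
    | zero =>
      simp only [zero_add, pow_one, pow_zero, div_one]
      refine ⟨fun s hs => ?_, ?_⟩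
      · rw [hγτ]
        refine h.seg _ ?_
        have h4 : (fun s : ℝ => (ν : ℂ) * I + (b - ν * I) * s) =
            AffineMap.lineMap ((ν : ℂ) * I) b := by
          ext s; rw [AffineMap.lineMap_apply]; simp; ring
        have h5 : s ∈ segment ℝ (1 / M) 1 := by rwa [segment_eq_Icc (hs.1.trans hs.2)]
        have h6 := mem_image_of_mem (AffineMap.lineMap (k := ℝ) ((ν : ℂ) * I) b) h5
        rw [image_segment, ← h4] at h6
        simpa only [h3, ofReal_one, mul_one, add_sub_cancel] using h6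
      · rw [hγ1, ← h.orb, left hH p h.near, hγτ, h3]
    | succ j ih =>
      have hpos : Icc (1 / M ^ (j + 1)) (1 / M ^ j) ⊆ Ioi 0 := fun s hs =>
        lt_of_lt_of_le (by positivity) hs.1
      have hle : 1 / M ^ (j + 1) ≤ 1 / M ^ j :=
        one_div_le_one_div_of_le (by positivity) (pow_le_pow_right₀ (by linarith) j.le_succ)
      have he := hUQ D ℝ _ (p * D.L) (fun s => H^[p] (γ s)) (fun s => γ (s / M)) (1 / M ^ j)
        isPreconnected_Icc ((hH.cont.iterate hH.maps p).comp (hcont _ hpos) ih.1)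
        ((hcont _ subset_rfl).comp (by fun_prop) fun s hs => div_pos (hpos hs) hM0)
        (fun s hs => by rw [inv hH p (ih.1 s hs), hit s (hpos hs)])
        (fun s hs i _ e => D.v_Bas i (by
          rw [← e, inv hH p (ih.1 s hs)]; exact D.B_mem_Bas hσ1 (hre s (hpos hs))))
        ⟨hle, le_rfl⟩ (by rw [ih.2, div_div, ← pow_succ])
      refine ⟨fun s hs => ?_, ?_⟩
      · have h4 : s * M ∈ Icc (1 / M ^ (j + 1)) (1 / M ^ j) := by
          constructor
          · rw [← div_le_iff₀ hM0, div_div, ← pow_succ]; exact hs.1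
          · rw [← le_div_iff₀ hM0, div_div, ← pow_succ]; exact hs.2
        have h5 := he h4
        simp only [mul_div_cancel_right₀ s hM0.ne'] at h5
        exact h5 ▸ hH.maps.iterate p (ih.1 _ h4)
      · have h5 := he ⟨le_rfl, hle⟩
        simp only at h5
        rw [h5, div_div, ← pow_succ]
  have h7 : ∀ j : ℕ, γ (1 / M ^ j) = H^[j * p] (D.B τ b) := fun j => by
    induction j with
    | zero => simpa using hγ1
    | succ j ih => rw [← (key j).2, ih, ← Function.iterate_add_apply, Nat.succ_mul, add_comm]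
  intro j
  have h8 := contr hX hH (j * p) h.last
  rw [← h7] at h8
  refine le_trans (mul_le_mul_of_nonneg_right (pow_le_pow_right₀ (le_add_of_nonneg_right (by
    have := hX.big; positivity)) (Nat.le_mul_of_pos_right j h.pos)) (norm_nonneg _))
    (h8.trans h.last.le)

end Pool.Agent.Lib.PR95
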