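import Pool.Agent.Lib.PR95.Kit

/-! Pieces inside a vertex neighbourhood are adjacent to a ray of the cycle. -/

set_option autoImplicit false

open Filter Topology Set Metric Complex Bornology N62a1eb23
open scoped Real

namespace Pool.Agent.Lib.PR95

open Pool.Agent.Lib.MP_c35c17_an

namespace ADJ

/-- A punctured disc is connected. -/
theorem conn_punct (y : ℂ) (ε : ℝ) : IsPreconnected {w | w ∈ ball y ε ∧ w ≠ y} := by
  have h : {w | w ∈ ball y ε ∧ w ≠ y} =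
      (fun ω => y + exp ω) '' {ω : ℂ | ω.re ∈ {x ∈ univ | Real.exp x < ε}} := by
    ext w
    simp only [mem_ofPred_eq, mem_image, mem_ball, dist_eq_norm, mem_univ, true_and]
    constructor
    · rintro ⟨h1, h2⟩
      have h3 : w - y ≠ 0 := sub_ne_zero.mpr h2
      refine ⟨log (w - y), ?_, by rw [exp_log h3, add_sub_cancel]⟩
      rwa [← norm_exp, exp_log h3]
    · rintro ⟨ω, h1, rfl⟩
      rw [add_sub_cancel_left, norm_exp]
      exact ⟨h1, fun e => exp_ne_zero ω (add_eq_left.mp e)⟩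
  rw [h]
  exact IsPreconnected.image ((convexOn_exp.convex_lt ε).linear_preimage reLm).isPreconnected _
    (by fun_prop)

variable {D : Data}

theorem not_Xs {y : ℂ} (hy : y ∈ D.Cyc) : y ∉ D.Xs D.L y := fun h =>
  (D.mem_Xs.mp h).elim (fun h => Data.Cyc_Bas hy (D.Out_Bas _ h)) fun ⟨_, _, h1, h2⟩ => h1 h2

theorem ray_mem (hRAY : St_RAY) {y θ : ℂ} (hy : y ∈ D.Cyc) (hθ : θ ∈ D.Th) (hl : D.Lands θ y)
    {t : ℝ} (h0 : 0 < t) (h1 : t < 1 / D.d) : D.B θ t ∈ D.Nb D.L y := by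
  have hn := Data.Th_norm hθ
  have hA : IsPreconnected ((fun s : ℝ => D.B θ s) '' Ioo 0 (1 / D.d)) :=
    isPreconnected_Ioo.image _ ((D.B_cont_real hn).mono Ioo_subset_Ioi_self)
  have hc : y ∈ closure ((fun s : ℝ => D.B θ s) '' Ioo 0 (1 / D.d)) :=
    mem_closure_of_tendsto hl (by
      filter_upwards [Ioo_mem_nhdsGT (one_div_pos.mpr D.d_pos)] with s hs using ⟨s, hs, rfl⟩)
  have hS := hA.subset_closure (subset_insert y _) (insert_subset hc subset_closure)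
  refine D.subset_Nb hS ?_ (mem_insert _ _) (mem_connectedComponentIn (not_Xs hy))
    (mem_insert_of_mem _ ⟨t, ⟨h0, h1⟩, rfl⟩)
  rintro _ (rfl | ⟨s, hs, rfl⟩)
  · exact not_Xs hy
  · intro h
    rcases D.mem_Xs.mp h with h | ⟨τ, h2, h3, h4⟩
    · exact absurd ((D.B_mem_Out_real hn hs.1 _).mp h) (not_le.mpr hs.2)
    · have h5 := (D.B_mem_closure_Ray hRAY (ω := (s : ℂ)) hn (Data.Ang_norm h2)
        (by simpa using hs.1)).mp h4
      rw [ofReal_im, ofReal_zero, zero_mul, exp_zero, mul_one] at h5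
      exact h3 (h5 ▸ hl.mem_closure)

theorem on_ray (hRAY : St_RAY) {y w : ℂ} (hy : y ∈ D.Cyc) (hw : w ∈ D.Nb D.L y)
    (hg : w ∈ D.Gam D.L) : w = y ∨ ∃ θ ∈ D.Th, D.Lands θ y ∧
      ∃ t : ℝ, 0 < t ∧ t < 1 / D.d ∧ w = D.B θ t := by
  have hx : w ∉ D.Xs D.L y := D.Nb_sub _ _ hw
  have ho : w ∉ D.Out D.L := fun h => hx (D.mem_Xs.mpr (Or.inl h))
  obtain ⟨τ, h1, h2⟩ := (D.mem_Gam.mp hg).resolve_left ho
  have h3 : y ∈ closure (D.Ray τ) := by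
    by_contra h3
    exact hx (D.mem_Xs.mpr (Or.inr ⟨τ, h1, h3, h2⟩))
  obtain ⟨h4, h5⟩ := (hRAY D).2.2.2.2 _ τ h1 y hy h3
  rcases (hRAY D).2.1 τ y (Data.Ang_norm h1) h5 w h2 with ⟨t, ht, rfl⟩ | h6
  · exact Or.inr ⟨τ, h4, h5, t, ht, not_le.mp fun h =>
      ho ((D.B_mem_Out_real (Data.Ang_norm h1) ht _).mpr h), rfl⟩
  · exact Or.inl h6

/-- A piece in a vertex neighbourhood has a boundary point in it other than the vertex. -/
theorem exists_frontier (hDOM : St_DOM) {y w : ℂ} (hy : y ∈ D.Cyc) (hw : w ∈ D.Nb D.L y)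
    (hg : w ∉ D.Gam D.L) :
    ∃ p ∈ closure (D.Pc D.L w), p ∈ D.Nb D.L y ∧ p ∉ D.Pc D.L w ∧ p ≠ y := by
  by_contra hcon
  have hc : ∀ p ∈ closure (D.Pc D.L w), p ∈ D.Nb D.L y → p ≠ y → p ∈ D.Pc D.L w :=
    fun p h1 h2 h3 => by_contra fun h4 => hcon ⟨p, h1, h2, h4, h3⟩
  have hW := (hDOM D D.L w).2.2.1.op
  have hN := (hDOM D D.L y).2.2.2.2
  have hyW : y ∉ D.Pc D.L w := fun h => D.Pc_sub _ _ h (Data.Cyc_Gam hy _)
  have hyN : y ∈ D.Nb D.L y := mem_connectedComponentIn (not_Xs hy)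
  obtain ⟨ε, hε, hb⟩ := Metric.isOpen_iff.mp hN.op y hyN
  have hcl : y ∉ closure (D.Pc D.L w) := fun h => by
    obtain ⟨x, h1, h2⟩ := _root_.mem_closure_iff.mp h _ isOpen_ball (mem_ball_self hε)
    have h3 := (conn_punct y ε).subset_of_closure_inter_subset hW
      ⟨x, ⟨h1, fun e => hyW (e ▸ h2)⟩, h2⟩ fun p hp => hc p hp.1 (hb hp.2.1) hp.2.2
    obtain ⟨θ, h4, h5⟩ := Data.Cyc_lands hy
    obtain ⟨t, h6, h7⟩ := ((h5.eventually (ball_mem_nhds y hε)).and self_mem_nhdsWithin).exists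
    have h8 := D.B_mem_Bas_real (Data.Th_norm h4) h7
    exact D.Pc_sub _ _ (h3 ⟨h6, fun e => Data.Cyc_Bas hy (e ▸ h8)⟩)
      (D.Ray_Gam (Data.Th_Ang h4 _) (subset_closure ⟨t, h7, rfl⟩))
  exact hyW (hN.conn.subset_of_closure_inter_subset hW ⟨w, hw, D.mem_Pc hg⟩
    (fun p hp => hc p hp.1 hp.2 fun e => hcl (e ▸ hp.1)) hyN)

theorem thin (hRAY : St_RAY) (hGAP : St_GAP) {θ ω : ℂ} (hθ : θ ∈ D.Th) (h0 : 0 < ω.re)
    (h1 : ω.re < 1 / D.d) (h2 : ω.im ≠ 0) (h3 : |ω.im| < 2 * π / D.d ^ 2) :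
    D.B θ ω ∉ D.Gam D.L := fun h => by
  have hd := D.d_pos
  rcases (D.B_mem_Gam hRAY (Data.Th_norm hθ) h0 _).mp h with h | h
  · exact absurd h (not_le.mpr h1)
  · refine (hGAP D).1 θ hθ (D.d * ω.im) (mul_ne_zero hd.ne' h2) ?_ ?_
    · rw [abs_mul, abs_of_pos hd, lt_div_iff₀ hd]
      rw [lt_div_iff₀ (by positivity)] at h3
      linarith
    · have h4 : (θ * exp (ω.im * I)) ^ D.n ^ D.L ∈ D.Th := h
      rw [mul_pow, Data.Th_per hθ, ← exp_nat_mul] at h4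
      rw [ofReal_mul, D.d_cast, mul_assoc]
      exact_mod_cast h4

theorem side (hRAY : St_RAY) (hGAP : St_GAP) {θ ω w : ℂ} (hθ : θ ∈ D.Th) {a b s : ℝ}
    (hab : ∀ x ∈ Ioo a b, x ≠ 0 ∧ |x| < 2 * π / D.d ^ 2) (hs : s * (π / D.d ^ 2) ∈ Ioo a b)
    (hω : ω ∈ Ioo 0 (1 / D.d) ×ℂ Ioo a b) (hw : D.B θ ω ∈ D.Pc D.L w) :
    D.smp θ s ∈ D.Pc D.L w := by
  have hd := D.d_pos
  refine D.subset_Pc (S := D.B θ '' (Ioo 0 (1 / D.d) ×ℂ Ioo a b))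
    (conn_rect.image _ ((D.B_diff (Data.Th_norm hθ)).continuousOn.mono fun x hx => hx.1.1)) ?_
    ⟨ω, hω, rfl⟩ hw ⟨_, ?_, rfl⟩
  · rintro _ ⟨x, hx, rfl⟩
    exact thin hRAY hGAP hθ hx.1.1 hx.1.2 (hab _ hx.2).1 (hab _ hx.2).2
  · rw [mem_reProdIm, add_re, add_im, ofReal_re, ofReal_im, re_ofReal_mul, im_ofReal_mul, I_re,
      I_im, mul_zero, add_zero, zero_add, mul_one]
    exact ⟨⟨by positivity, one_div_lt_one_div_of_lt hd (by linarith)⟩, hs⟩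

end ADJ

theorem st_ADJ (hRAY : St_RAY) (hDOM : St_DOM) (hGAP : St_GAP) : St_ADJ := by
  intro D y hy
  refine ⟨mem_connectedComponentIn (ADJ.not_Xs hy),
    fun θ hθ hl t h0 h1 => ADJ.ray_mem hRAY hy hθ hl h0 h1,
    fun w hw hg => ADJ.on_ray hRAY hy hw hg, fun w hw hg => ?_⟩
  obtain ⟨p, h1, h2, h3, h4⟩ := ADJ.exists_frontier hDOM hy hw hg
  obtain ⟨θ, hθ, -, t, h5, h6, rfl⟩ := (ADJ.on_ray hRAY hy h2
    (((hDOM D D.L w).2.2.2.1 h1).resolve_left h3)).resolve_left h4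
  have hd := D.d_pos
  have hq : 0 < π / D.d ^ 2 := by positivity
  have he : 2 * π / D.d ^ 2 = 2 * (π / D.d ^ 2) := mul_div_assoc _ _ _
  have hS : Ioo 0 (1 / D.d) ×ℂ Ioo (-(2 * π / D.d ^ 2)) (2 * π / D.d ^ 2) ∈ 𝓝 (t : ℂ) :=
    (isOpen_Ioo.reProdIm isOpen_Ioo).mem_nhds (by
      rw [mem_reProdIm, ofReal_re, ofReal_im]
      exact ⟨⟨h5, h6⟩, by linarith, by linarith⟩)
  obtain ⟨_, ⟨ω, hω, rfl⟩, h7⟩ := mem_closure_iff_nhds.mp h1 _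
    (D.B_image_nhds (Data.Th_norm hθ) (by simpa using h5) hS)
  rcases lt_trichotomy ω.im 0 with h | h | h
  · exact ⟨θ, hθ, -1, Or.inr rfl, ADJ.side hRAY hGAP hθ (a := -(2 * π / D.d ^ 2)) (b := 0)
      (fun x hx => ⟨hx.2.ne, abs_lt.mpr ⟨hx.1, by linarith [hx.2]⟩⟩) ⟨by linarith, by linarith⟩
      ⟨hω.1, hω.2.1, h⟩ h7⟩
  · refine absurd ((D.B_mem_Gam hRAY (Data.Th_norm hθ) hω.1.1 _).mpr (Or.inr ?_))
      (D.Pc_sub _ _ h7)
    rw [h, ofReal_zero, zero_mul, exp_zero, mul_one]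
    exact Data.Th_Ang hθ _
  · exact ⟨θ, hθ, 1, Or.inl rfl, ADJ.side hRAY hGAP hθ (a := 0) (b := 2 * π / D.d ^ 2)
      (fun x hx => ⟨hx.1.ne', abs_lt.mpr ⟨by linarith [hx.1], hx.2⟩⟩) ⟨by linarith, by linarith⟩
      ⟨hω.1, h, hω.2.2⟩ h7⟩

end Pool.Agent.Lib.PR95
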