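import Pool.Agent.Lib.PR95.Kit

/-! Existence of inverse branches. -/

set_option autoImplicit false

open Filter Topology Set Metric Complex Bornology N62a1eb23
open scoped Real

namespace Pool.Agent.Lib.PR95

open Pool.Agent.Lib.MP_c35c17_an

theorem st_BR : St_BR := by
  intro D U b y hU
  induction b generalizing y with
  | zero => exact fun _ _ => ⟨id, differentiableOn_id, rfl, fun _ _ => rfl⟩
  | succ b ih =>
    intro hv hy
    obtain ⟨h, h1, h2, h3⟩ := ih (D.f y) (fun j hj => hv j (hj.trans b.lt_succ_self)) hy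
    obtain ⟨φ, ψ, hφ, -⟩ := Q.riemann hU.op hU.bdd hU.conn hU.full hy
    have h0 : ∀ w ∈ U, h w - D.c ≠ 0 := fun w hw e => hv b b.lt_succ_self (by
      rw [Data.v, ← sub_eq_zero.mp e, h3 w hw]; exact hw)
    obtain ⟨l, hl, hle⟩ := Q.exists_log_disc ((h1.sub_const D.c).comp hφ.dψ hφ.mψ)
      fun x hx => h0 _ (hφ.mψ hx)
    have hn : (D.n : ℂ) ≠ 0 := Nat.cast_ne_zero.mpr D.n_ne
    have h4 : ∀ w ∈ U, exp (l (φ w) / D.n) ^ D.n = h w - D.c := fun w hw => by
      rw [← exp_nat_mul, mul_div_cancel₀ _ hn, hle _ (hφ.mφ hw), Function.comp_apply, hφ.left w hw]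
    have h5 : (y / exp (l (φ (D.f^[b + 1] y)) / D.n)) ^ D.n = 1 := by
      rw [div_pow, h4 _ hy, div_eq_one_iff_eq (h0 _ hy), Function.iterate_succ_apply, h2]
      simp
    refine ⟨fun w => y / exp (l (φ (D.f^[b + 1] y)) / D.n) * exp (l (φ w) / D.n),
      (((hl.comp hφ.dφ hφ.mφ).div_const _).cexp).const_mul _,
      div_mul_cancel₀ _ (exp_ne_zero _), fun w hw => ?_⟩
    refine Eq.trans (congrArg D.f^[b] ?_) (h3 w hw)
    change (_ * _) ^ D.n + D.c = _
    rw [mul_pow, h5, h4 w hw, one_mul, sub_add_cancel]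

end Pool.Agent.Lib.PR95
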