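import Pool.Agent.Lib.PR95.Kit
import Pool.Agent.Lib.MP_91ca62_lc.Landau

/-! Weak Koebe distortion in the chart of the basin. -/

set_option autoImplicit false

open Filter Topology Set Metric Complex Bornology N62a1eb23
open scoped Real

namespace Pool.Agent.Lib.PR95

open Pool.Agent.Lib.MP_c35c17_an

namespace KO

theorem re_pos {ω z : ℂ} (hz : z ∈ ball ω ω.re) : 0 < z.re := by
  have h1 := abs_re_le_norm (z - ω)
  rw [mem_ball, dist_eq_norm] at hz
  rw [sub_re] at h1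
  linarith [(abs_le.mp h1).1]

theorem inj (D : Data) {τ ω a b : ℂ} (hτ : ‖τ‖ = 1) (h1 : ω.re ≤ 1) (ha : a ∈ ball ω ω.re)
    (hb : b ∈ ball ω ω.re) (e : D.B τ a = D.B τ b) : a = b := by
  have h0 : τ ≠ 0 := norm_ne_zero_iff.mp (by rw [hτ]; exact one_ne_zero)
  have h2 := mul_left_cancel₀ h0 (D.B_inj hτ (re_pos ha) hτ (re_pos hb) e).1
  obtain ⟨k, hk⟩ := exp_eq_exp_iff_exists_int.mp h2
  have h3 : ‖a - b‖ < 2 := by
    have := dist_triangle_right a b ω
    rw [mem_ball] at ha hb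
    rw [← dist_eq_norm]
    linarith
  have h4 : ‖a - b‖ = |(k : ℝ)| * (2 * π) := by
    rw [hk, add_sub_cancel_left, norm_mul, norm_mul, norm_mul, norm_I, norm_intCast, norm_real,
      Real.norm_eq_abs, abs_of_pos Real.pi_pos]
    simp
  have h5 : k = 0 := by
    by_contra hk0
    have h6 : (1 : ℝ) ≤ |(k : ℝ)| := by exact_mod_cast Int.one_le_abs hk0
    nlinarith [Real.pi_gt_three]
  rw [hk, h5]
  simp

theorem deriv_le (D : Data) {τ y ω : ℂ} (hτ : ‖τ‖ = 1) (hy : y ∉ D.Bas) (h0 : 0 < ω.re)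
    (h1 : ω.re ≤ 1) : ∃ e, HasDerivAt (fun z => D.B τ z - y) e ω ∧
      ‖e‖ ≤ 384 / ω.re * ‖D.B τ ω - y‖ := by
  have hd : DifferentiableOn ℂ (fun z => D.B τ z - y) (ball ω ω.re) :=
    ((D.B_diff hτ).mono fun z hz => re_pos hz).sub_const y
  have hn : ∀ z ∈ ball ω ω.re, D.B τ z - y ≠ 0 := fun z hz e =>
    hy (sub_eq_zero.mp e ▸ D.B_mem_Bas hτ (re_pos hz))
  obtain ⟨l, hl1, -, hl2⟩ := Pool.Agent.Const69.exists_log h0 hd hn
    (exp_log (hn ω (mem_ball_self h0)))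
  have hb := Pool.Agent.Const69.bloch (R := 4) h0 (by norm_num) hl1 (fun w hw => by
    have hπ : ‖(π : ℂ) * I‖ < 4 := by
      rw [norm_mul, norm_I, norm_real, Real.norm_eq_abs, abs_of_pos Real.pi_pos, mul_one]
      exact Real.pi_lt_four
    obtain ⟨a, ha, ea⟩ := hw (show w + π * I ∈ ball w 4 by
      rwa [mem_ball, dist_eq_norm, add_sub_cancel_left])
    obtain ⟨b, hb, eb⟩ := hw (show w - π * I ∈ ball w 4 by
      rwa [mem_ball, dist_eq_norm, sub_sub_cancel_left, norm_neg])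
    have h2 : exp (l a) = exp (l b) := by
      rw [ea, eb, exp_add, exp_sub, exp_pi_mul_I, div_neg, div_one, mul_neg, mul_one]
    rw [hl2 a ha, hl2 b hb, sub_left_inj] at h2
    rw [inj D hτ h1 ha hb h2, eb] at ea
    have h3 := congrArg im ea
    simp only [sub_im, add_im, mul_im, ofReal_re, I_im, ofReal_im, I_re] at h3
    linarith [Real.pi_pos])
  have hm := isOpen_ball.mem_nhds (mem_ball_self h0 : ω ∈ ball ω ω.re)
  have h4 := (hl1.differentiableAt hm).hasDerivAt.cexp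
  refine ⟨_, h4.congr_of_eventuallyEq (mem_of_superset hm fun z hz => (hl2 z hz).symm), ?_⟩
  rw [norm_mul, hl2 ω (mem_ball_self h0), mul_comm]
  exact mul_le_mul_of_nonneg_right (hb.trans_eq (by norm_num)) (norm_nonneg _)

theorem gron (D : Data) {τ y : ℂ} (hτ : ‖τ‖ = 1) (hy : y ∉ D.Bas) (K : ℝ) (γ γ' : ℝ → ℂ)
    (h : ∀ u ∈ Icc (0 : ℝ) 1, HasDerivAt γ (γ' u) u ∧ 0 < (γ u).re ∧ (γ u).re ≤ 1 ∧
      ‖γ' u‖ ≤ K * (γ u).re) :
    ‖D.B τ (γ 1) - y‖ ≤ Real.exp (384 * K) * ‖D.B τ (γ 0) - y‖ := by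
  have h1 : ∀ u ∈ Icc (0 : ℝ) 1, ∃ e, HasDerivAt (fun u => D.B τ (γ u) - y) e u ∧
      ‖e‖ ≤ 384 * K * ‖D.B τ (γ u) - y‖ + 0 := by
    intro u hu
    obtain ⟨a1, a2, a3, a4⟩ := h u hu
    obtain ⟨e, e1, e2⟩ := deriv_le D hτ hy a2 a3
    refine ⟨_, e1.comp_of_eq u a1 rfl, ?_⟩
    rw [norm_mul, add_zero]
    refine (mul_le_mul e2 a4 (norm_nonneg _) ((norm_nonneg _).trans e2)).trans_eq ?_
    field_simp
  choose! e e1 e2 using h1
  have h2 := norm_le_gronwallBound_of_norm_deriv_right_le (f := fun u => D.B τ (γ u) - y)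
    (f' := e) (a := 0) (b := 1)
    (fun u hu => (e1 u hu).continuousAt.continuousWithinAt)
    (fun u hu => (e1 u (Ico_subset_Icc_self hu)).hasDerivWithinAt) le_rfl
    (fun u hu => e2 u (Ico_subset_Icc_self hu)) 1 ⟨zero_le_one, le_rfl⟩
  rwa [gronwallBound_ε0, sub_zero, mul_one, mul_comm] at h2

theorem radial (D : Data) {τ y : ℂ} (hτ : ‖τ‖ = 1) (hy : y ∉ D.Bas) {x x' ρ : ℝ} (h1 : 0 < x)
    (h2 : x ≤ 1) (h3 : 0 < x') (h4 : x' ≤ 1) (h5 : x ≤ ρ * x') (h6 : x' ≤ ρ * x) :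
    ‖D.B τ x - y‖ ≤ ρ ^ 384 * ‖D.B τ x' - y‖ := by
  have hρ : 0 < ρ := (mul_pos_iff_of_pos_right h3).mp (h1.trans_le h5)
  have l1 := Real.log_nonpos h1.le h2
  have l2 := Real.log_nonpos h3.le h4
  have l3 := Real.log_le_log h1 h5
  have l4 := Real.log_le_log h3 h6
  rw [Real.log_mul hρ.ne' h3.ne'] at l3
  rw [Real.log_mul hρ.ne' h1.ne'] at l4
  have h := gron D hτ hy (Real.log ρ)
    (fun u => (Real.exp (Real.log x' + u * (Real.log x - Real.log x')) : ℝ))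
    (fun u => (Real.exp (Real.log x' + u * (Real.log x - Real.log x')) *
      (Real.log x - Real.log x') : ℝ)) (fun u hu => by
      refine ⟨?_, ?_, ?_, ?_⟩
      · exact (((hasDerivAt_mul_const _).const_add _).exp).ofReal_comp
      · rw [ofReal_re]; exact Real.exp_pos _
      · rw [ofReal_re, Real.exp_le_one_iff]; nlinarith [hu.1, hu.2]
      · rw [ofReal_re, norm_real, Real.norm_eq_abs, abs_mul, abs_of_pos (Real.exp_pos _), mul_comm]
        exact mul_le_mul_of_nonneg_right (abs_le.mpr ⟨by linarith, by linarith⟩)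
          (Real.exp_pos _).le)
  have e : Real.exp (384 * Real.log ρ) = ρ ^ 384 := by
    rw [show (384 : ℝ) = (384 : ℕ) by norm_num, Real.exp_nat_mul, Real.exp_log hρ]
  simp only [one_mul, zero_mul, add_zero, add_sub_cancel, Real.exp_log h1, Real.exp_log h3] at h
  rwa [e] at h

theorem vertical (D : Data) {τ y : ℂ} (hτ : ‖τ‖ = 1) (hy : y ∉ D.Bas) {s η : ℝ} (h1 : 0 < s)
    (h2 : s ≤ 1) (h3 : |η| ≤ 13) :
    ‖D.B τ s - y‖ ≤ Real.exp 5000 * ‖D.B τ ((η * s : ℝ) * I + s) - y‖ := by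
  have h := gron D hτ hy 13 (fun u => ((1 - u) * (η * s) : ℝ) * I + s)
    (fun _ => (-(η * s) : ℝ) * I) (fun u _ => by
      have e : ((((1 - u) * (η * s) : ℝ) : ℂ) * I + s).re = s := by
        simp only [add_re, mul_re, ofReal_re, I_re, ofReal_im, I_im]; ring
      refine ⟨?_, ?_, ?_, ?_⟩
      · have := (((hasDerivAt_id u).const_sub 1).mul_const (η * s)).ofReal_comp
        rw [neg_mul, one_mul] at this
        exact (this.mul_const I).add_const _
      · rwa [e]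
      · rwa [e]
      · rw [e, norm_mul, norm_I, mul_one, norm_real, Real.norm_eq_abs, abs_neg, abs_mul,
          abs_of_pos h1]
        exact mul_le_mul_of_nonneg_right h3 h1.le)
  simp only [sub_self, zero_mul, ofReal_zero, zero_add, sub_zero, one_mul] at h
  exact h.trans (mul_le_mul_of_nonneg_right (Real.exp_le_exp.mpr (by norm_num)) (norm_nonneg _))

end KO

theorem st_KO : St_KO := by
  intro D τ y hτ hy
  refine ⟨fun x x' ρ => KO.radial D hτ hy, fun s x η h1 h2 h3 h4 h5 => ?_⟩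
  have hxs : 0 < x * s := mul_pos h3 h1
  have hxs1 : x * s ≤ s := mul_le_of_le_one_left h1.le h4
  have hi : 1 ≤ x⁻¹ := (one_le_inv₀ h3).mpr h4
  have k1 : s ≤ x⁻¹ * (x * s) := (inv_mul_cancel_left₀ h3.ne' s).ge
  have k2 : x * s ≤ x⁻¹ * s := hxs1.trans (le_mul_of_one_le_left h1.le hi)
  have a1 := KO.radial D hτ hy hxs (hxs1.trans h2) h1 h2 k2 k1
  have a2 := KO.vertical D hτ hy h1 h2 h5
  have a3 := KO.radial D (Data.norm_rot hτ (η * s)) hy h1 h2 hxs (hxs1.trans h2) k1 k2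
  rw [← D.B_add, ← D.B_add] at a3
  rw [show ((x : ℂ) + η * I) * s = (η * s : ℝ) * I + (x * s : ℝ) by push_cast; ring]
  generalize ‖D.B τ (x * s : ℝ) - y‖ = A at *
  generalize ‖D.B τ s - y‖ = A1 at *
  generalize ‖D.B τ ((η * s : ℝ) * I + s) - y‖ = A2 at *
  generalize ‖D.B τ ((η * s : ℝ) * I + (x * s : ℝ)) - y‖ = A3 at *
  have hp : 0 < x ^ 384 := pow_pos h3 _
  rw [inv_pow, le_inv_mul_iff₀ hp] at a1 a3
  rw [show 768 = 384 + 384 from rfl, pow_add]
  generalize x ^ 384 = p at *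
  generalize hE : Real.exp 5000 = E at *
  have hE0 : 0 < E := hE ▸ Real.exp_pos _
  calc p * p * A = p * (p * A) := by ring
    _ ≤ p * (E * A2) := mul_le_mul_of_nonneg_left (a1.trans a2) hp.le
    _ = E * (p * A2) := by ring
    _ ≤ E * A3 := mul_le_mul_of_nonneg_left a3 hE0.le

end Pool.Agent.Lib.PR95
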