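import Pool.Agent.Lib.PR95.Kit

/-! Inverse branches map vertex neighbourhoods into vertex neighbourhoods. -/

set_option autoImplicit false

open Filter Topology Set Metric Complex Bornology N62a1eb23
open scoped Real

namespace Pool.Agent.Lib.PR95

open Pool.Agent.Lib.MP_c35c17_an

theorem st_LIFT (hRAY : St_RAY) (hADJ : St_ADJ) (hUQ : St_UQ) : St_LIFT := by
  intro D b h y hy hc hi w hw hx
  obtain ⟨a1, a2, a3, -⟩ := hADJ D y hy
  rcases D.mem_Xs.mp hx with h1 | ⟨τ, h1, h2, h3⟩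
  · exact D.Nb_sub _ _ hw (Or.inl (hi w hw ▸ (D.iter_mem_Out _ _).mpr h1))
  have hτ := Data.Ang_norm h1
  have h4 : w ∈ D.Gam D.L := hi w hw ▸ D.Ray_Gam ((D.Ang_add _ _).mpr h1) (D.iter_Ray hτ b h3)
  obtain ⟨θ, hθ, hl, t, t0, t1, rfl⟩ := (a3 w hw h4).resolve_left fun e => h2 (e ▸ h3)
  have hu := Data.Th_norm hθ
  obtain ⟨t', t0', e⟩ := (hRAY D).1 τ hτ _ h3 ((D.iter_mem_Bas b).mp (by
    rw [hi _ hw]; exact D.B_mem_Bas_real hu t0))
  simp only at e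
  have h5 := hi _ hw
  rw [← e, D.B_iter_real hτ t0'] at h5
  obtain ⟨e1, e2⟩ := D.B_inj_real (by rw [norm_pow, hτ, one_pow]) (mul_pos (D.np_pos b) t0') hu t0 h5
  have hm : ∀ s ∈ Ioc 0 t, D.B θ (s : ℝ) ∈ D.Nb D.L y := fun s hs =>
    a2 θ hθ hl s hs.1 (hs.2.trans_lt t1)
  have hp : ∀ s : ℝ, 0 < s → 0 < s / (D.n : ℝ) ^ b := fun s hs => div_pos hs (D.np_pos b)
  have he := hUQ D ℝ _ b (fun s : ℝ => h (D.B θ s)) (fun s => D.B τ (s / (D.n : ℝ) ^ b : ℝ)) t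
    isPreconnected_Ioc (hc.comp ((D.B_cont_real hu).mono Ioc_subset_Ioi_self) hm)
    ((D.B_cont_real hτ).comp (by fun_prop) fun s hs => hp s hs.1)
    (fun s hs => by
      rw [hi _ (hm s hs), D.B_iter_real hτ (hp s hs.1), e1, mul_div_cancel₀ _ (D.np_pos b).ne'])
    (fun s hs j _ e => D.v_Bas j (by rw [← e, hi _ (hm s hs)]; exact D.B_mem_Bas_real hu hs.1))
    ⟨t0, le_rfl⟩ (by rw [← e, ← e2, mul_div_cancel_left₀ _ (D.np_pos b).ne'])
  refine h2 (mem_closure_of_tendsto ((hc y a1).tendsto.comp (tendsto_nhdsWithin_iff.mpr ⟨hl, ?_⟩)) ?_)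
  · filter_upwards [Ioc_mem_nhdsGT t0] with s hs using hm s hs
  · filter_upwards [Ioc_mem_nhdsGT t0] with s hs using ⟨_, hp s hs.1, (he hs).symm⟩

end Pool.Agent.Lib.PR95
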