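import Pool.Agent.Lib.PR95.Kit

/-! The pigeonhole on strips. -/

set_option autoImplicit false

open Filter Topology Set Metric Complex Bornology N62a1eb23
open scoped Real

namespace Pool.Agent.Lib.PR95

open Pool.Agent.Lib.MP_c35c17_an

namespace PIG

variable {D : Data} {X : ℝ}

theorem num (hX : D.Big X) {i : ℕ} (hi : i ≤ 2 * D.L * (D.n * D.L)) :
    (i : ℝ) ≤ 2 * X ^ 3 ∧ X ^ D.L * (X ^ (i * D.L) * Real.exp (-(4 * X ^ 5))) ≤
      Real.exp (-(3 * X ^ 3)) := by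
  have h0 := hX.big
  have h1 : (i : ℝ) ≤ 2 * X ^ 3 := by
    calc (i : ℝ) ≤ 2 * D.L * (D.n * D.L) := by exact_mod_cast hi
      _ ≤ 2 * X * (X * X) := by gcongr <;> first | exact hX.per | exact hX.n_le
      _ = _ := by ring
  refine ⟨h1, ?_⟩
  have h2 : X ^ (i * D.L) ≤ Real.exp (i * X ^ 2) := by
    rw [mul_comm, pow_mul, Real.exp_nat_mul]
    exact pow_le_pow_left₀ (by positivity) hX.powL_le i
  calc _ ≤ Real.exp (X ^ 2) * (Real.exp (i * X ^ 2) * Real.exp (-(4 * X ^ 5))) := by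
        gcongr; exact hX.powL_le
    _ ≤ _ := by
        rw [← Real.exp_add, ← Real.exp_add, Real.exp_le_exp]
        have h3 : (i : ℝ) * X ^ 2 ≤ 2 * X ^ 3 * X ^ 2 := by gcongr
        have h4 : X ^ 2 ≤ X ^ 3 := pow_le_pow_right₀ hX.one_le (by norm_num)
        have h5 : 2 * X ^ 3 ≤ X ^ 2 * X ^ 3 := by gcongr; nlinarith
        nlinarith

theorem count (hCNT : St_CNT) {N : ℕ} (hN : D.Esc N) (hL : D.L ≤ N) : ∃ S : Finset ℂ,
    S.card ≤ 2 * D.L * (D.n * D.L) ∧ ∀ θ ∈ D.Th, ∀ s : ℝ, s = 1 ∨ s = -1 → D.smp θ s ∉ D.Gam D.L →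
      ∀ τ ∈ D.Ang D.L, D.Str D.L τ ⊆ D.Pc D.L (D.smp θ s) → τ ∈ S := by
  classical
  obtain ⟨T, h1, h2⟩ := D.Th_finset
  have hf : ∀ w, {τ ∈ D.Ang D.L | w ∉ D.Gam D.L ∧ D.Str D.L τ ⊆ D.Pc D.L w}.Finite :=
    fun w => (D.Ang_fin _).subset fun τ hτ => hτ.1
  refine ⟨(T ×ˢ ({1, -1} : Finset ℝ)).biUnion fun p => (hf (D.smp p.1 p.2)).toFinset, ?_,
    fun θ hθ s hs h3 τ h4 h5 => Finset.mem_biUnion.mpr ⟨(θ, s), Finset.mem_product.mpr
      ⟨(h2 θ).mpr hθ, by simpa using hs⟩, (hf _).mem_toFinset.mpr ⟨h4, h3, h5⟩⟩⟩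
  refine (Finset.card_biUnion_le_card_mul _ _ (D.n * D.L) fun p _ => ?_).trans
    (Nat.mul_le_mul_right _ ?_)
  · rw [← ncard_eq_toFinset_card _ (hf _)]
    by_cases h : D.smp p.1 p.2 ∈ D.Gam D.L
    · simp [h]
    · simpa [h] using hCNT D N D.L _ hN hL h
  · rw [Finset.card_product, mul_comm]
    exact Nat.mul_le_mul (Finset.card_le_two) h1

theorem rect (hGAP : St_GAP) {τ ω : ℂ} (hτ : τ ∈ D.Ang D.L) (hω : ω ∈ D.Rect (τ ^ D.n ^ D.L)) :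
    ω / (D.n : ℂ) ^ D.L ∈ Ioo (0 : ℝ) (1 / 2) ×ℂ Ioo (0 : ℝ) π := by
  have h1 : ω.re ∈ Ioo (0 : ℝ) 1 := hω.1
  have h2 : ω.im ∈ Ioo (0 : ℝ) _ := hω.2
  have h3 := ((hGAP D).2.1 _ hτ).2.1
  have h4 : 2 ≤ (D.n : ℝ) ^ D.L := D.two_le_d
  have h5 := D.np_pos D.L
  refine ⟨show _ ∈ Ioo _ _ from ?_, show _ ∈ Ioo _ _ from ?_⟩
  · rw [D.div_np_re]
    exact ⟨div_pos h1.1 h5, by rw [div_lt_iff₀ h5]; linarith [h1.2]⟩
  · rw [D.div_np_im]
    exact ⟨div_pos h2.1 h5, by rw [div_lt_iff₀ h5]; nlinarith [h2.2, Real.pi_pos]⟩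

end PIG

open PIG in
theorem st_PIG (hGAP : St_GAP) (hSTR : St_STR) (hADJ : St_ADJ) (hCNT : St_CNT) (hLOC : St_LOC)
    (hNB : St_NB) (hFAST : St_FAST) : St_PIG := by
  intro D X N hX hN h2N
  obtain ⟨τ₀, t, h1, h2, h3⟩ := hFAST D X hX
  have ht : 0 < t := (Real.exp_pos _).trans_le h2
  have hX0 : 0 < X := by linarith [hX.big]
  obtain ⟨S, hS, hS'⟩ := count hCNT hN (by omega)
  set V := 2 * D.L * (D.n * D.L) with hV
  set w : ℕ → ℂ := fun i => D.f^[i * D.L] (D.B τ₀ t) with hw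
  have hXL : 1 ≤ X ^ D.L := one_le_pow₀ hX.one_le
  have hnear : ∀ i ≤ V, X ^ D.L * ‖w i - D.z‖ < Real.exp (-(3 * X ^ 3)) := fun i hi => by
    have h4 : X ^ D.L * (X ^ (i * D.L) * ‖D.B τ₀ t - D.z‖) < Real.exp (-(3 * X ^ 3)) :=
      lt_of_lt_of_le (by gcongr) (num hX hi).2
    have h5 := (hLOC D X hX).1 _ (Data.Cyc_K D.z_mem) (i * D.L) (D.B τ₀ t)
      ((le_mul_of_one_le_left (by positivity) hXL).trans (h4.le.trans
        (Real.exp_le_one_iff.mpr (neg_nonpos.mpr (by positivity)))))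
    rw [Data.Cyc_fix_mul D.z_mem] at h5
    exact lt_of_le_of_lt (by gcongr) h4
  have hnear' : ∀ i ≤ V, ‖w i - D.z‖ < Real.exp (-(3 * X ^ 3)) := fun i hi =>
    (le_mul_of_one_le_left (norm_nonneg _) hXL).trans_lt (hnear i hi)
  have hN' : ∀ i ≤ V, w i ∈ D.Nb D.L D.z := fun i hi =>
    hNB D X hX _ D.z_mem (mem_ball_iff_norm.mpr (hnear' i hi))
  have hu : ∀ i, ‖τ₀ ^ D.n ^ i‖ = 1 := fun i => by rw [norm_pow, h1, one_pow]
  have hB : ∀ i, w i = D.B (τ₀ ^ D.n ^ (i * D.L)) ((D.n : ℝ) ^ (i * D.L) * t : ℝ) :=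
    fun i => D.B_iter_real h1 ht _
  have hp : ∀ i, 0 < (D.n : ℝ) ^ i * t := fun i => mul_pos (D.np_pos i) ht
  have hp' : ∀ i, Real.exp (-(11 * X ^ 8)) ≤ (D.n : ℝ) ^ i * t := fun i =>
    h2.trans (le_mul_of_one_le_left ht.le (D.one_le_np i))
  have hBas : ∀ i, w i ∈ D.Bas := fun i => hB i ▸ D.B_mem_Bas_real (hu _) (hp _)
  obtain ⟨-, -, a3, a4⟩ := hADJ D _ D.z_mem
  by_cases hG : ∃ i ≤ V, w i ∈ D.Gam D.L
  · obtain ⟨i, hi, h4⟩ := hG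
    obtain ⟨θ, hθ, -, s, s0, s1, e⟩ := (a3 _ (hN' i hi) h4).resolve_left
      fun e => Data.Cyc_Bas D.z_mem (e ▸ hBas i)
    refine Or.inl ⟨θ, hθ, s, ?_, s1.le.trans ?_, e ▸ hnear' i hi⟩
    · rw [← (D.B_inj_real (hu _) (hp _) (Data.Th_norm hθ) s0 ((hB i).symm.trans e)).2]
      exact hp' _
    · rw [div_le_one D.d_pos]; linarith [D.two_le_d]
  push Not at hG
  choose! τ hτ hτ' using fun i (hi : i ≤ V) => (hSTR D D.L).2 _ (hBas i) (hG i hi)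
  have hsub : ∀ i ≤ V, D.Str D.L (τ i) ⊆ D.Pc D.L (w i) := fun i hi =>
    ((hSTR D D.L).1 _ (hτ i hi)).2.2.2 _ (hτ' i hi)
  have key : ∀ i j, i < j → j ≤ V → τ i = τ j → ∃ τ a b p, D.Pair X τ a b p := by
    intro i j hij hj e
    have hi : i ≤ V := by omega
    obtain ⟨p, rfl⟩ := Nat.exists_eq_add_of_le hij.le
    obtain ⟨a, ha, ea⟩ := hτ' i hi
    obtain ⟨b, hb, eb⟩ := hτ' _ hj
    rw [← e] at hb eb
    simp only at ea eb
    have hit : ∀ k, D.f^[k * D.L] (w i) = w (i + k) := fun k => by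
      simp only [hw]; rw [D.f_iter_add, ← add_mul, add_comm]
    have h5 := rect hGAP (hτ i hi) hb
    refine ⟨τ i, _, _, p, Data.Ang_norm (hτ i hi), by omega, (num hX (by omega)).1,
      rect hGAP (hτ i hi) ha, h5, ?_, fun ω hω => D.Pc_Nb (hN' i hi) (hsub i hi ?_),
      by rw [ea, eb, hit], fun k hk => by rw [ea, hit]; exact hnear _ (by omega),
      by rw [eb]; exact hnear' _ hj⟩
    · rw [(D.B_inj (Data.Ang_norm (hτ i hi)) h5.1.1 (hu _) (by rw [ofReal_re]; exact hp _)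
        (eb.trans (hB _))).2.1, ofReal_re]
      exact hp' _
    · obtain ⟨s, s', h6, h7, h8, rfl⟩ := hω
      refine ⟨s • a + s' • b, convex_rect (convex_Ioo _ _) (convex_Ioo _ _) ha hb h6 h7 h8, ?_⟩
      simp only [add_div, smul_div_assoc]
  obtain ⟨i, hi, j, hj, hne, e⟩ := Finset.exists_ne_map_eq_of_card_lt_of_maps_to
    (s := Finset.range (V + 1)) (t := S) (f := τ) (by rw [Finset.card_range]; omega) fun i hi => by
      have hi' : i ≤ V := Nat.lt_succ_iff.mp (Finset.mem_range.mp hi)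
      obtain ⟨θ, hθ, s, hs, h4⟩ := a4 _ (hN' i hi') (hG i hi')
      exact hS' θ hθ s hs (D.Pc_sub _ _ h4) _ (hτ i hi') (D.Pc_eq h4 ▸ hsub i hi')
  rw [Finset.mem_range] at hi hj
  rcases hne.lt_or_gt with h | h
  · exact Or.inr (key i j h (by omega) e)
  · exact Or.inr (key j i h (by omega) e.symm)

end Pool.Agent.Lib.PR95
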