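import Pool.Agent.Lib.PR95.Kit

/-! The image of a long inverse branch in the charts of the basin. -/

set_option autoImplicit false

open Filter Topology Set Metric Complex Bornology N62a1eb23
open scoped Real

namespace Pool.Agent.Lib.PR95

open Pool.Agent.Lib.MP_c35c17_an

namespace SEP1

variable {D : Data}

/-- The branch on one strip. -/
theorem chart (hUQ : St_UQ) {a b : ℕ} {G : ℂ → ℂ} (hG : D.Chain a b G) {θ : ℂ} (hθ : θ ∈ D.Th)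
    (hs : D.Str 0 θ ⊆ D.Y (a + b)) (hne : (D.Rect θ).Nonempty) : ∃ τ, ‖τ‖ = 1 ∧
      τ ^ D.n ^ b = θ ∧ ∀ ω ∈ D.Rect θ, G (D.B θ ω) = D.B τ (ω / (D.n : ℂ) ^ b) := by
  obtain ⟨ω₁, h1⟩ := hne
  have hm : ∀ ω ∈ D.Rect θ, D.B θ ω ∈ D.Y (a + b) := fun ω hω =>
    hs (by rw [D.Str_zero]; exact ⟨ω, hω, rfl⟩)
  obtain ⟨τ, h2, h3, h4⟩ := D.pre_B b (Data.Th_norm hθ) h1.1.1 (hG.inv _ (hm _ h1))
  refine ⟨τ, h2, h3, hUQ D ℂ _ b (fun ω => G (D.B θ ω)) (fun ω => D.B τ (ω / (D.n : ℂ) ^ b)) ω₁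
    conn_rect (hG.diff.continuousOn.comp (D.B_cont_comp (Data.Th_norm hθ) continuousOn_id
      fun ω hω => hω.1.1) hm) (D.B_cont_comp h2 (by fun_prop) fun ω hω => D.div_np_pos hω.1.1 b)
    (fun ω hω => by rw [hG.inv _ (hm ω hω), D.B_iter_div h2 hω.1.1, h3])
    (fun ω hω i _ e => D.v_Bas i (by
      rw [← e, hG.inv _ (hm ω hω)]; exact D.B_mem_Bas (Data.Th_norm hθ) hω.1.1)) h1 h4⟩

theorem np_big : 16 * D.d ^ 2 ≤ (D.n : ℝ) ^ (2 * D.L + 4) := by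
  rw [pow_add, mul_comm 2, pow_mul, mul_comm 16]
  refine mul_le_mul_of_nonneg_left ?_ (by positivity)
  calc (16 : ℝ) = 2 ^ 4 := by norm_num
    _ ≤ _ := pow_le_pow_left₀ (by norm_num) (by exact_mod_cast D.hn) 4

/-- The wide rectangle stays in the piece. -/
theorem wide (hRAY : St_RAY) (hPRE : St_PRE) (hVIS : St_VIS) {N a : ℕ} {G : ℂ → ℂ}
    (hN : D.Esc N) (ha : 1 ≤ a) (haN : a + (2 * D.L + 4) ≤ N) (hG : D.Chain a (2 * D.L + 4) G)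
    {τ : ℂ} (hτ : ‖τ‖ = 1) {g : ℝ} (hg : 0 < g) (hg' : g ≤ 2 * π)
    (h : D.B τ ((((1 / 2 : ℝ) : ℂ) + (g / 2 : ℝ) * I) / (D.n : ℂ) ^ (2 * D.L + 4)) ∈
      G '' D.Y (a + (2 * D.L + 4))) :
    ∀ ω ∈ Ioo (0 : ℝ) 4 ×ℂ Ioo (-2 : ℝ) 9, D.B τ (ω / (D.n : ℂ) ^ (2 * D.L + 4)) ∈ D.Y a := by
  set b := 2 * D.L + 4 with hb
  have h1 : 16 * D.d ^ 2 ≤ (D.n : ℝ) ^ b := np_big
  have h2 := D.two_le_d
  have h3 := Real.pi_gt_three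
  have h3' := Real.pi_lt_d2
  have hnp := D.np_pos b
  obtain ⟨w, hw, hw'⟩ := h
  have hY : G w ∈ D.Y a := by simpa using hG.mem w hw 0 (Nat.zero_le _)
  have hre : (((1 / 2 : ℝ) : ℂ) + (g / 2 : ℝ) * I).re = 1 / 2 := by simp
  have him : (((1 / 2 : ℝ) : ℂ) + (g / 2 : ℝ) * I).im = g / 2 := by simp
  generalize ((1 / 2 : ℝ) : ℂ) + (g / 2 : ℝ) * I = ω₁ at hw' hre him
  have hout : ∀ ω ∈ Ioo (0 : ℝ) 4 ×ℂ Ioo (-2 : ℝ) 9, D.B τ (ω / (D.n : ℂ) ^ b) ∉ D.Gam 0 := by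
    intro ω hω h4
    have h5 : ω.re ∈ Ioo (0 : ℝ) 4 := hω.1
    have h6 : ω.im ∈ Ioo (-2 : ℝ) 9 := hω.2
    rw [D.B_mem_Gam hRAY hτ (D.div_np_pos h5.1 b), D.div_np_re, D.Ang_zero, pow_zero, div_one,
      one_le_div hnp] at h4
    rcases h4 with h4 | h4
    · nlinarith [h5.2]
    · have e : G w = D.B (τ * exp ((ω / (D.n : ℂ) ^ b).im * I))
          (ω₁ / (D.n : ℂ) ^ b - (ω / (D.n : ℂ) ^ b).im * I) := by
        rw [← D.B_add, add_sub_cancel, hw']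
      have r1 : (ω₁ / (D.n : ℂ) ^ b - (ω / (D.n : ℂ) ^ b).im * I).re = 1 / 2 / (D.n : ℝ) ^ b := by
        rw [sub_re, D.div_np_re, hre]; simp
      have r2 : (ω₁ / (D.n : ℂ) ^ b - (ω / (D.n : ℂ) ^ b).im * I).im =
          (g / 2 - ω.im) / (D.n : ℝ) ^ b := by
        rw [sub_im, D.div_np_im, him, sub_div, ← D.div_np_im ω]; simp
      have r3 : 0 < 1 / 2 / (D.n : ℝ) ^ b := by positivity
      obtain ⟨j, h7, h8, h9⟩ := hVIS D (G w) ⟨_, h4, _, r1 ▸ r3, by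
        rw [r1, div_lt_div_iff₀ hnp D.d_pos]; nlinarith, fun h0 => D.Pc_sub 0 _ hY (by
          rw [e, D.B_mem_Gam hRAY (Data.Th_norm h4) (r1 ▸ r3), h0, D.Ang_zero]
          simpa using Or.inr h4), by
        rw [r2, abs_div, abs_of_pos hnp, div_lt_div_iff₀ hnp (by positivity)]
        have : |g / 2 - ω.im| < 9 := abs_lt.mpr ⟨by linarith [h6.2], by linarith [h6.1]⟩
        nlinarith [sq_pos_of_pos D.d_pos], e⟩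
      exact hN.not_mem (t := a + j) (by omega) (by omega) ((hPRE D).2.2.2 0 _)
        (hG.mem w hw j (by omega)) h9
  have hω₁ : ω₁ ∈ Ioo (0 : ℝ) 4 ×ℂ Ioo (-2 : ℝ) 9 :=
    ⟨show ω₁.re ∈ Ioo _ _ by rw [hre]; norm_num,
      show ω₁.im ∈ Ioo _ _ by rw [him]; constructor <;> linarith⟩
  exact fun ω hω => D.subset_Pc (conn_rect.image _ (D.B_cont_comp hτ (by fun_prop)
    fun ω hω => D.div_np_pos hω.1.1 b)) (by rintro _ ⟨ω, hω, rfl⟩; exact hout ω hω) ⟨ω₁, hω₁, rfl⟩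
    (by rw [hw'] at hY; exact hY) ⟨ω, hω, rfl⟩

/-- The closure of the image of a rectangle inside the basin. -/
theorem clos {τ : ℂ} (hτ : ‖τ‖ = 1) {g : ℝ} {b : ℕ} {y : ℂ} (hy : y ∈ D.Bas)
    (h : y ∈ closure ((fun ω => D.B τ (ω / (D.n : ℂ) ^ b)) '' (Ioo 0 1 ×ℂ Ioo 0 g))) :
    ∃ ω ∈ Ioc (0 : ℝ) 1 ×ℂ Icc (0 : ℝ) g, y = D.B τ (ω / (D.n : ℂ) ^ b) := by
  obtain ⟨u, hu, rfl⟩ := hy
  have h1 := D.mem_closure_of_image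
    (S := (fun ω => τ * exp (ω / (D.n : ℂ) ^ b)) '' (Ioo 0 1 ×ℂ Ioo 0 g))
    (by rintro _ ⟨ω, hω, rfl⟩; exact Data.one_lt_arg hτ (D.div_np_pos hω.1.1 b)) hu
    (by rwa [← image_comp])
  obtain ⟨ω, h2, rfl⟩ := closure_minimal (image_mono (t := Icc (0 : ℝ) 1 ×ℂ Icc (0 : ℝ) g)
    fun ω hω => ⟨Ioo_subset_Icc_self hω.1, Ioo_subset_Icc_self hω.2⟩)
    ((isCompact_Icc.reProdIm isCompact_Icc).image (by fun_prop)).isClosed h1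
  refine ⟨ω, ⟨⟨?_, h2.1.2⟩, h2.2⟩, rfl⟩
  rw [mem_ofPred_eq, Data.norm_arg hτ, Real.one_lt_exp_iff, D.div_np_re] at hu
  exact (div_pos_iff_of_pos_right (D.np_pos b)).mp hu

end SEP1

open SEP1 in
theorem st_SEP1 (hRAY : St_RAY) (hPRE : St_PRE) (hGAP : St_GAP) (hSTR : St_STR) (hVIS : St_VIS)
    (hUQ : St_UQ) : St_SEP1 := by
  classical
  intro D N a G hN ha haN hG
  obtain ⟨T₀, hT₀, hT⟩ := D.Th_finset
  have hgap : ∀ θ ∈ D.Th, 0 < D.gap θ := fun θ hθ =>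
    lt_of_lt_of_le (div_pos Real.two_pi_pos D.d_pos) ((hGAP D).2.1 θ hθ).1
  have hmid : ∀ θ ∈ D.Th, ((1 / 2 : ℝ) : ℂ) + (D.gap θ / 2 : ℝ) * I ∈ D.Rect θ := fun θ hθ =>
    ⟨show _ ∈ Ioo _ _ by norm_num, show _ ∈ Ioo _ _ by simpa using hgap θ hθ⟩
  choose! τ h1 h2 h3 using fun θ (h : θ ∈ D.Th ∧ D.Str 0 θ ⊆ D.Y (a + (2 * D.L + 4))) =>
    chart hUQ hG h.1 h.2 ⟨_, hmid θ h.1⟩
  set T := T₀.filter fun θ => D.Str 0 θ ⊆ D.Y (a + (2 * D.L + 4)) with hTd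
  have hm : ∀ θ, θ ∈ T ↔ θ ∈ D.Th ∧ D.Str 0 θ ⊆ D.Y (a + (2 * D.L + 4)) := fun θ => by
    rw [hTd, Finset.mem_filter, hT]
  have hinn : ∀ θ ∈ T, ∀ ω ∈ D.Rect θ, D.B (τ θ) (ω / (D.n : ℂ) ^ (2 * D.L + 4)) ∈
      G '' D.Y (a + (2 * D.L + 4)) := fun θ hθ ω hω =>
    ⟨_, ((hm θ).mp hθ).2 (by rw [D.Str_zero]; exact ⟨ω, hω, rfl⟩), h3 θ ((hm θ).mp hθ) ω hω⟩
  refine ⟨T, τ, (Finset.card_filter_le _ _).trans hT₀, fun θ hθ => ((hm θ).mp hθ).1,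
    fun θ hθ => h1 θ ((hm θ).mp hθ), fun θ hθ => h2 θ ((hm θ).mp hθ), fun θ hθ => ?_, hinn,
    fun y hy hyB => ?_⟩
  · have h4 := (hm θ).mp hθ
    exact wide hRAY hPRE hVIS hN ha haN hG (h1 θ h4) (hgap θ h4.1) ((hGAP D).2.1 θ h4.1).2.1
      (hinn θ hθ _ (hmid θ h4.1))
  · have h4 : D.Bas ∩ G '' D.Y (a + (2 * D.L + 4)) ⊆ ⋃ θ ∈ T,
        (fun ω => D.B (τ θ) (ω / (D.n : ℂ) ^ (2 * D.L + 4))) '' D.Rect θ := by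
      rintro _ ⟨h5, w, hw, rfl⟩
      have h6 : w ∈ D.Bas := hG.inv w hw ▸ (D.iter_mem_Bas _).mpr h5
      obtain ⟨θ, h7, h8⟩ := (hSTR D 0).2 w h6 (D.Pc_sub 0 _ hw)
      have h9 : θ ∈ T := (hm θ).mpr ⟨D.Ang_zero ▸ h7, by
        rw [Data.Y, D.Pc_eq hw]; exact ((hSTR D 0).1 θ h7).2.2.2 w h8⟩
      rw [D.Str_zero] at h8
      obtain ⟨ω, hω, rfl⟩ := h8
      exact mem_biUnion h9 ⟨ω, hω, (h3 θ ((hm θ).mp h9) ω hω).symm⟩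
    have h5 := closure_mono h4 (D.Bas_open.inter_closure ⟨hyB, hy⟩)
    rw [Finset.closure_biUnion] at h5
    obtain ⟨θ, hθ, h6⟩ := mem_iUnion₂.mp h5
    exact ⟨θ, hθ, clos (h1 θ ((hm θ).mp hθ)) hyB h6⟩

end Pool.Agent.Lib.PR95
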