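import Pool.Agent.Lib.PR95.Kit

/-! The image of a long inverse branch is compactly contained in the piece. -/

set_option autoImplicit false

open Filter Topology Set Metric Complex Bornology N62a1eb23
open scoped Real

namespace Pool.Agent.Lib.PR95

open Pool.Agent.Lib.MP_c35c17_an

theorem st_SEP2 (hRAY : St_RAY) (hDOM : St_DOM) (hPRE : St_PRE) (hGAP : St_GAP) (hADJ : St_ADJ)
    (hSHA : St_SHA) : St_SEP2 := by
  intro D N a G T τ hN ha haN hG hC
  set b := 2 * D.L + 4 with hb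
  have hGm : MapsTo G (D.Y (a + b)) (D.Y a) := fun w hw => by
    simpa using hG.mem w hw 0 (Nat.zero_le _)
  have ho : IsOpen (D.Y (a + b)) := (hDOM D 0 _).2.2.1.op
  have hP : ∀ y ∈ G '' D.Y (a + b), D.f^[b] y ∈ D.Y (a + b) := by
    rintro _ ⟨w, hw, rfl⟩
    rwa [hG.inv w hw]
  have hcyc : ∀ y ∈ closure (G '' D.Y (a + b)), y ∉ D.Cyc := fun y hy hc => by
    obtain ⟨_, h1, w, hw, rfl⟩ := _root_.mem_closure_iff.mp hy _ (hDOM D D.L y).2.2.2.2.op
      (hADJ D y hc).1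
    obtain ⟨j, h2, h3, h4⟩ := (hSHA D y hc).1 _ h1 fun h => D.Pc_sub 0 _ hw (by
      rw [← hG.inv w hw, (hPRE D).1]
      exact D.Gam_mono (by omega) h)
    exact hN.not_mem (t := a + j) (by omega) (by omega) ((hPRE D).2.2.2 0 _)
      (hG.mem w hw j (by omega)) h4
  have hsub : closure (G '' D.Y (a + b)) ⊆ D.Y a := fun y hy => by
    by_cases h1 : y ∈ D.Bas
    · obtain ⟨θ, hθ, ω, hω, rfl⟩ := hC.cov y hy h1
      have h2 : ω.re ∈ Ioc (0 : ℝ) 1 := hω.1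
      have h3 : ω.im ∈ Icc (0 : ℝ) (D.gap θ) := hω.2
      exact hC.wide θ hθ ω ⟨show ω.re ∈ Ioo _ _ from ⟨h2.1, by linarith [h2.2]⟩,
        show ω.im ∈ Ioo _ _ from ⟨by linarith [h3.1], by
          linarith [h3.2, ((hGAP D).2.1 θ (hC.th θ hθ)).2.1, Real.pi_lt_d2]⟩⟩
    · exact ((hDOM D 0 _).2.2.2.1 (closure_mono hGm.image_subset hy)).resolve_right
        fun h => hcyc y hy ((hRAY D).2.2.2.1 0 y h h1)
  refine ⟨Q.isOpen_image_of_injOn ho hG.diff (fun w hw w' hw' e => by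
    rw [← hG.inv w hw, e, hG.inv w' hw']) _ subset_rfl ho, hsub, hcyc, fun y hy hy' => ?_,
    fun θ hθ ω hω h => D.Pc_sub 0 _ (hP _ h) ?_⟩
  · by_cases h1 : y ∈ D.Bas
    · obtain ⟨θ, hθ, ω, hω, rfl⟩ := hC.cov y hy h1
      have h2 : ω.re ∈ Ioc (0 : ℝ) 1 := hω.1
      have h3 : ω.im ∈ Icc (0 : ℝ) (D.gap θ) := hω.2
      refine Or.inr ⟨θ, hθ, ω, ⟨h2.1, h2.2, h3.1, h3.2, ?_⟩, rfl⟩
      by_contra h4
      push Not at h4
      exact hy' (hC.inn θ hθ ω ⟨show ω.re ∈ Ioo _ _ from ⟨h2.1, h2.2.lt_of_ne h4.1⟩,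
        show ω.im ∈ Ioo _ _ from ⟨h3.1.lt_of_ne' h4.2.1, h3.2.lt_of_ne h4.2.2⟩⟩)
    · refine Or.inl ((hRAY D).2.2.2.1 0 _ (((hDOM D 0 _).2.2.2.1
        (MapsTo.closure hP (D.f_cont b) hy)).resolve_left fun h2 => hy' ⟨_, h2, ?_⟩)
        fun h => h1 ((D.iter_mem_Bas b).mp h))
      have h3 : ContinuousAt (fun x => G (D.f^[b] x)) y :=
        (hG.diff.continuousOn.continuousAt (ho.mem_nhds h2)).comp (D.f_cont b).continuousAt
      have h4 := mem_closure_iff_nhdsWithin_neBot.mp hy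
      refine tendsto_nhds_unique (h3.continuousWithinAt (s := G '' D.Y (a + b)))
        ((continuousWithinAt_id (x := y)).congr' (eventually_nhdsWithin_of_forall ?_))
      rintro _ ⟨w, hw, rfl⟩
      simp only [id, hG.inv w hw]
  · have h1 := hC.th θ hθ
    rw [D.B_iter_div (hC.unit θ hθ) hω.1, hC.root θ hθ, D.B_mem_Gam hRAY (Data.Th_norm h1) hω.1,
      D.Ang_zero]
    rcases hω.2.2.2.2 with h2 | h2 | h2
    · left; simp [h2]
    · right; simpa [h2] using h1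
    · right; rw [h2]; exact ((hGAP D).2.1 θ h1).2.2.1

end Pool.Agent.Lib.PR95
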