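import Pool.Agent.Lib.PR95.Kit

/-! No long shadowing of the cycle. -/

set_option autoImplicit false

open Filter Topology Set Metric Complex Bornology N62a1eb23
open scoped Real

namespace Pool.Agent.Lib.PR95

open Pool.Agent.Lib.MP_c35c17_an

theorem st_SHA (hPRE : St_PRE) (hVIS : St_VIS) (hADJ : St_ADJ) : St_SHA := by
  intro D y hy
  have h1 : ∀ w ∈ D.Nb D.L y, w ∉ D.Gam D.L → ∃ j, 1 ≤ j ∧ j ≤ D.L ∧ D.f^[j] w ∈ D.Y 0 := by
    intro w hw hw'
    obtain ⟨θ, hθ, s, hs, h2⟩ := (hADJ D y hy).2.2.2 w hw hw'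
    have hd := D.d_pos
    have hp : 0 < π / D.d ^ 2 := by positivity
    have him : (((1 / (2 * D.d) : ℝ) : ℂ) + (s * (π / D.d ^ 2) : ℝ) * I).im =
        s * (π / D.d ^ 2) := by
      simp only [add_im, ofReal_im, mul_im, ofReal_re, I_im, I_re, mul_one, mul_zero, add_zero,
        zero_add]
    have hre : (((1 / (2 * D.d) : ℝ) : ℂ) + (s * (π / D.d ^ 2) : ℝ) * I).re = 1 / (2 * D.d) := by
      simp only [add_re, ofReal_im, mul_re, ofReal_re, I_im, I_re, mul_one, mul_zero, add_zero,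
        sub_zero]
    have ha : |s * (π / D.d ^ 2)| = π / D.d ^ 2 := by
      rcases hs with rfl | rfl <;> simp [abs_of_pos hp]
    obtain ⟨j, h3, h4, h5⟩ := hVIS D (D.smp θ s) ⟨θ, hθ, _, by rw [hre]; positivity,
      by rw [hre]; exact one_div_lt_one_div_of_lt hd (by linarith),
      by rw [him, ← abs_pos, ha]; exact hp, by rw [him, ha, mul_div_assoc]; linarith, rfl⟩
    obtain ⟨m, hm⟩ := Nat.exists_eq_add_of_le' h4
    have h6 := (hPRE D).2.2.1 m j w
    rw [← hm] at h6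
    refine ⟨j, h3, h4, ?_⟩
    rw [Data.Y, D.Pc_eq h5, ← D.Pc_eq (h6 h2)]
    exact h6 (D.mem_Pc hw')
  refine ⟨h1, fun N j hN hj h => ?_⟩
  obtain ⟨i, h2, h3, h4⟩ := h1 _ h ((hPRE D).2.2.2 _ _)
  rw [D.iter_v] at h4
  exact hN _ (by omega) (by omega) h4

end Pool.Agent.Lib.PR95
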