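import Pool.Agent.Lib.PR95.Kit

/-! A long inverse branch contracts by a definite amount. -/

set_option autoImplicit false

open Filter Topology Set Metric Complex Bornology N62a1eb23
open scoped Real

namespace Pool.Agent.Lib.PR95

open Pool.Agent.Lib.MP_c35c17_an

namespace STEP

/-- Every radius leaves a compactly contained open set. -/
theorem exit {φ ψ : ℂ → ℂ} {W P : Set ℂ} (h : Q.Bihol φ ψ W (ball 0 1)) (hb : IsBounded W)
    (hP : IsOpen P) (hc : closure P ⊆ W) (h0 : ψ 0 ∈ P) {u : ℂ} (hu : ‖u‖ = 1) :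
    ∃ r : ℝ, 0 ≤ r ∧ r < 1 ∧ ψ (r * u) ∈ closure P ∧ ψ (r * u) ∉ P := by
  by_contra hne
  push Not at hne
  have hm : ∀ r ∈ Ico (0 : ℝ) 1, (r : ℂ) * u ∈ ball (0 : ℂ) 1 := fun r hr => by
    rw [mem_ball_zero_iff, norm_mul, hu, mul_one, norm_real, Real.norm_of_nonneg hr.1]
    exact hr.2
  have h1 : IsPreconnected ((fun r : ℝ => ψ (r * u)) '' Ico 0 1) :=
    isPreconnected_Ico.image _ (h.dψ.continuousOn.comp (by fun_prop) hm)
  have h2 := h1.subset_of_closure_inter_subset hP ⟨ψ 0, ⟨0, by simp, by simp⟩, h0⟩ (by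
    rintro _ ⟨h3, r, hr, rfl⟩
    exact hne r hr.1 hr.2 h3)
  have h3 : IsCompact (φ '' closure P) :=
    (hb.subset (subset_closure.trans hc)).isCompact_closure.image_of_continuousOn
      (h.dφ.continuousOn.mono hc)
  have h4 : u ∈ φ '' closure P := by
    refine h3.isClosed.mem_of_tendsto (f := fun r : ℝ => (r : ℂ) * u) (b := 𝓝[<] 1) ?_ ?_
    · exact tendsto_nhdsWithin_of_tendsto_nhds
        ((by fun_prop : Continuous fun r : ℝ => (r : ℂ) * u).tendsto' 1 u (by simp))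
    · filter_upwards [Ico_mem_nhdsLT (show (0 : ℝ) < 1 from one_pos)] with r hr
      exact ⟨_, subset_closure (h2 ⟨r, hr, rfl⟩), h.right _ (hm r hr)⟩
  obtain ⟨y, hy, e⟩ := h4
  have h5 := h.lt (hc hy)
  rw [e, hu] at h5
  exact lt_irrefl _ h5

theorem sides_sub {a : ℝ} (ha : a ≤ 2 * π) : Sides a ⊆ Ioo (0 : ℝ) 4 ×ℂ Ioo (-2 : ℝ) 9 :=
  fun ω hω => ⟨show ω.re ∈ Ioo _ _ from ⟨hω.1, by linarith [hω.2.1]⟩, show ω.im ∈ Ioo _ _ from
    ⟨by linarith [hω.2.2.1], by linarith [hω.2.2.2.1, Real.pi_lt_d2]⟩⟩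

theorem num {X m : ℝ} (hX : 1000 ≤ X) (hm : m ≤ X) :
    4 * (m + 1) * (1 / X ^ 19 * (4 * X ^ 17 + 70 + 2)) < 1 := by
  have h0 : 0 < X := by linarith
  have h1 : 72 ≤ X ^ 17 := le_trans (by linarith) (le_self_pow₀ (by linarith) (by norm_num))
  calc _ ≤ 4 * (2 * X) * (1 / X ^ 19 * (5 * X ^ 17)) := by gcongr <;> linarith
    _ = 40 / X := by field_simp; norm_num
    _ < 1 := by rw [div_lt_one h0]; linarith

end STEP

open STEP in
theorem st_STEP (hDOM : St_DOM) (hGAP : St_GAP) (hSEP1 : St_SEP1) (hSEP2 : St_SEP2)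
    (hVTX : St_VTX) (hDIAM : St_DIAM) (hCON : St_CON) : St_STEP := by
  intro D X N a G φ ψ φ' ψ' hX hE hN ha haN h3N hG hφ hψ hφ' hψ'
  obtain ⟨T, τ, hC⟩ := hSEP1 D N a G hN ha haN hG
  obtain ⟨s1, s2, s3, s4, s5⟩ := hSEP2 D N a G T τ hN ha haN hG hC
  have hV := hVTX D X N a G T τ hX hE hN h3N hC s3
  set b := 2 * D.L + 4 with hb
  have hX0 : 0 < X := by linarith [hX.big]
  have hGm : MapsTo G (D.Y (a + b)) (D.Y a) := fun w hw => by
    simpa using hG.mem w hw 0 (Nat.zero_le _)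
  have h00 : (0 : ℂ) ∈ ball (0 : ℂ) 1 := mem_ball_self one_pos
  have hva : D.v a ∈ D.Y a := hψ ▸ hφ.mψ h00
  have hgap : ∀ θ ∈ T, 0 ≤ D.gap θ ∧ D.gap θ ≤ 2 * π := fun θ hθ =>
    let h := (hGAP D).2.1 θ (hC.th θ hθ)
    ⟨(div_pos Real.two_pi_pos D.d_pos).le.trans h.1, h.2.1⟩
  have him : ∀ y ∈ D.Y a, φ y ∈ (φ ∘ G ∘ ψ') '' ball 0 1 → y ∈ G '' D.Y (a + b) := by
    rintro y hy ⟨x, hx, e⟩
    exact ⟨_, hφ'.mψ hx, hφ.injOn (hGm (hφ'.mψ hx)) hy e⟩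
  have h1 := hCON (φ ∘ G ∘ ψ') T
    (fun θ => (fun ω => φ (D.B (τ θ) (ω / (D.n : ℂ) ^ b))) '' Sides (D.gap θ))
    (φ '' {y ∈ D.Y a | D.f^[b] y ∈ D.Cyc}) (1 / X ^ 19) (4 * X ^ 17 + 70)
    (hφ.dφ.comp (hG.diff.comp hφ'.dψ hφ'.mψ) (hGm.comp hφ'.mψ))
    (hφ.mφ.comp (hGm.comp hφ'.mψ))
    (by simp only [Function.comp_apply]; rw [hψ', hG.base, ← hψ, hφ.right 0 h00])
    (((D.pre_fin b D.Cyc_fin).subset fun y hy => hy.2).image φ)
    (by
      rintro ⟨y, hy, e⟩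
      have h2 := hφ.left y hy.1
      rw [e, hψ] at h2
      exact D.v_Cyc (a + b) (by rw [← D.iter_v, h2]; exact hy.2))
    (by positivity) (by positivity)
    (fun α => by
      obtain ⟨r, r0, r1, r2, r3⟩ := exit hφ (hDOM D 0 _).2.2.1.bdd s1 s2
        (by rw [hψ, ← hG.base]; exact ⟨_, hψ' ▸ hφ'.mψ h00, rfl⟩) (norm_exp_ofReal_mul_I α)
      have r4 : φ (ψ (r * exp (α * I))) = r * exp (α * I) := hφ.right _ (by
        rwa [mem_ball_zero_iff, norm_mul, norm_exp_ofReal_mul_I, mul_one, norm_real,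
          Real.norm_of_nonneg r0])
      refine ⟨r, r0, r1, (s4 _ r2 r3).imp (fun h => ⟨_, ⟨s2 r2, h⟩, r4⟩) ?_⟩
      rintro ⟨θ, hθ, ω, hω, e⟩
      exact ⟨θ, hθ, ω, hω, by simp only [← e, r4]⟩)
    (by
      rintro θ hθ _ ⟨ω, hω, rfl⟩ h
      exact s5 θ hθ ω hω (him _ (hC.wide θ hθ ω (sides_sub (hgap θ hθ).2 hω)) h))
    (by
      rintro h θ hθ _ ⟨ω, hω, rfl⟩ _ ⟨ω', hω', rfl⟩
      refine hDIAM (fun ω => φ (D.B (τ θ) (ω / (D.n : ℂ) ^ b))) (D.gap θ) (X ^ 17) _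
        (hgap θ hθ).1 (hgap θ hθ).2 (by positivity) (by positivity)
        (hφ.dφ.comp ((D.B_diff (hC.unit θ hθ)).comp (by fun_prop)
          fun ω hω => D.div_np_pos hω.1.1 b) (hC.wide θ hθ))
        (fun ω hω => hφ.mφ (hC.wide θ hθ ω hω)) (fun ω hω => ?_) (fun η hη => ?_) ω hω ω' hω'
      · have h2 := hC.wide θ hθ ω (sides_sub (hgap θ hθ).2 hω)
        exact h _ (hφ.lt h2) fun h3 => s5 θ hθ ω hω (him _ h2 h3)
      · obtain ⟨k, u, k1, k2, k3⟩ := hV θ hθ η hη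
        exact ⟨φ ∘ k, u, hφ.dφ.comp k1 k2, hφ.mφ.comp k2,
          fun x x1 x2 => ⟨(k3 x x1 x2).1, congrArg φ (k3 x x1 x2).2⟩⟩)
    (num hX.big ((Nat.cast_le.mpr hC.card).trans hX.per))
  refine h1.trans (sub_le_sub_left ?_ 1)
  rw [div_pow, one_pow, ← pow_mul, div_div, pow_succ X 38]
  exact one_div_le_one_div_of_le (by positivity)
    (mul_le_mul_of_nonneg_left (by linarith [hX.big]) (by positivity))

end Pool.Agent.Lib.PR95
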