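import Pool.Agent.Lib.PR95.Kit

/-! Growth of the derivative along the critical orbit. -/

set_option autoImplicit false

open Filter Topology Set Metric Complex Bornology N62a1eb23
open scoped Real

namespace Pool.Agent.Lib.PR95

open Pool.Agent.Lib.MP_c35c17_an

namespace TEL

variable {D : Data}

/-- The derivative of a branch in the Riemann charts. -/
theorem chain {a b : ℕ} {G φ ψ φ' ψ' : ℂ → ℂ} (hG : D.Chain a b G)
    (hφ : Q.Bihol φ ψ (D.Y a) (ball 0 1)) (hψ : ψ 0 = D.v a)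
    (hφ' : Q.Bihol φ' ψ' (D.Y (a + b)) (ball 0 1)) (hψ' : ψ' 0 = D.v (a + b)) :
    ‖deriv ψ' 0‖ = ‖deriv (φ ∘ G ∘ ψ') 0‖ * (‖dF D.n D.c b (D.v a)‖ * ‖deriv ψ 0‖) ∧
      ‖deriv (φ ∘ G ∘ ψ') 0‖ ≤ 1 := by
  have h00 : (0 : ℂ) ∈ ball (0 : ℂ) 1 := mem_ball_self one_pos
  have hn := isOpen_ball.mem_nhds h00
  have hGm : MapsTo G (D.Y (a + b)) (D.Y a) := fun w hw => by
    simpa using hG.mem w hw 0 (Nat.zero_le _)
  have hd : DifferentiableOn ℂ (φ ∘ G ∘ ψ') (ball 0 1) :=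
    hφ.dφ.comp (hG.diff.comp hφ'.dψ hφ'.mψ) (hGm.comp hφ'.mψ)
  have h0 : (φ ∘ G ∘ ψ') 0 = 0 := by
    simp only [Function.comp_apply]; rw [hψ', hG.base, ← hψ, hφ.right 0 h00]
  refine ⟨?_, norm_deriv_le_one_of_mapsTo_ball hd (by
    rw [h0]; exact (hφ.mφ.comp (hGm.comp hφ'.mψ)).mono_right ball_subset_closedBall) one_pos⟩
  have h1 := (hd.differentiableAt hn).hasDerivAt
  have h2 : HasDerivAt ψ (deriv ψ 0) ((φ ∘ G ∘ ψ') 0) := by
    rw [h0]; exact (hφ.dψ.differentiableAt hn).hasDerivAt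
  have h3 : HasDerivAt D.f^[b] (dF D.n D.c b (D.v a)) ((ψ ∘ φ ∘ G ∘ ψ') 0) := by
    rw [Function.comp_apply, h0, hψ]; exact hasDerivAt_iter _ _ _ _
  have h4 := (h3.comp 0 (h2.comp 0 h1)).congr_of_eventuallyEq (f₁ := ψ')
    (eventually_of_mem hn fun x hx => by
      simp only [Function.comp_apply]
      rw [hφ.left _ (hGm (hφ'.mψ hx)), hG.inv _ (hφ'.mψ hx)])
  rw [h4.deriv, norm_mul, norm_mul]
  ring

theorem radius_ge {W : Set ℂ} {φ ψ : ℂ → ℂ} (h : Q.Bihol φ ψ W (ball 0 1)) (ho : IsOpen W) {r : ℝ}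
    (hr : 0 < r) (hs : ball (ψ 0) r ⊆ W) : r ≤ ‖deriv ψ 0‖ := by
  have h00 : (0 : ℂ) ∈ ball (0 : ℂ) 1 := mem_ball_self one_pos
  have h1 := h.deriv_mul ho isOpen_ball (h.mψ h00)
  rw [h.right 0 h00] at h1
  have h2 := norm_deriv_le_div_of_mapsTo_ball (R₂ := 1) (h.dφ.mono hs) (by
    rw [h.right 0 h00]; exact (h.mφ.mono_left hs).mono_right ball_subset_closedBall) hr
  have h3 := congrArg norm h1
  rw [norm_mul, norm_one] at h3
  rw [le_div_iff₀ hr] at h2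
  nlinarith [norm_nonneg (deriv ψ 0)]

theorem num {X : ℝ} (hX : 1000 ≤ X) {t i b : ℝ} (hb : b ≤ 3 * X) (hi : 0 ≤ i)
    (ht : t ≤ (i + 1) * b) : Real.exp (t / X ^ 41 - X ^ 19) * (X * (2 * X)) ≤
      Real.exp (i / X ^ 39) * Real.exp (-X ^ 18) := by
  have h0 : 0 < X := by linarith
  have h1 : X * (2 * X) ≤ Real.exp (2 * X) := by
    have := Real.add_one_le_exp X
    rw [two_mul X, Real.exp_add]
    have h2 : 2 * X ≤ Real.exp X := by nlinarith [Real.quadratic_le_exp_of_nonneg h0.le]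
    exact mul_le_mul (by linarith) (by linarith) (by linarith) (by positivity)
  refine (mul_le_mul_of_nonneg_left h1 (by positivity)).trans ?_
  rw [← Real.exp_add, ← Real.exp_add, Real.exp_le_exp]
  have h2 : t / X ^ 41 ≤ (i + 1) / X ^ 39 := by
    rw [div_le_div_iff₀ (by positivity) (by positivity), show X ^ 41 = X ^ 2 * X ^ 39 by ring,
      ← mul_assoc]
    refine mul_le_mul_of_nonneg_right (ht.trans (mul_le_mul_of_nonneg_left ?_ (by linarith)))
      (by positivity)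
    nlinarith
  have h3 : 1 / X ^ 39 ≤ 1 := by
    rw [div_le_one (by positivity)]; exact one_le_pow₀ (by linarith)
  have h4 : X ≤ X ^ 18 := le_self_pow₀ (by linarith) (by norm_num)
  have h5 : X ^ 19 = X * X ^ 18 := by ring
  rw [add_div] at h2
  nlinarith

end TEL

open TEL in
theorem st_TEL (hDOM : St_DOM) (hPRE : St_PRE) (hDIST : St_DIST) (hCH : St_CH)
    (hSTEP : St_STEP) : St_TEL := by
  intro D X N t hX hE hN h3N ht htN
  have hX0 : 0 < X := by linarith [hX.big]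
  have hdom : ∀ t, Dom (D.Y t) := fun t => (hDOM D 0 _).2.2.1
  choose φ ψ hφ hψ using fun t => Q.riemann (hdom t).op (hdom t).bdd (hdom t).conn (hdom t).full
    (D.mem_Pc ((hPRE D).2.2.2 0 t))
  have hD : ∀ a b, ‖dF D.n D.c (a + b) D.c‖ = ‖dF D.n D.c b (D.v a)‖ * ‖dF D.n D.c a D.c‖ :=
    fun a b => by rw [dF_add, norm_mul]; rfl
  have step : ∀ (a b : ℕ) (s : ℝ), 1 ≤ a → a + b ≤ N → 0 ≤ s →
      (∀ G, D.Chain a b G → s * ‖deriv (φ a ∘ G ∘ ψ (a + b)) 0‖ ≤ 1) → ∀ e : ℝ, 0 ≤ e →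
      e * ‖deriv (ψ a) 0‖ ≤ ‖dF D.n D.c a D.c‖ →
      s * e * ‖deriv (ψ (a + b)) 0‖ ≤ ‖dF D.n D.c (a + b) D.c‖ := by
    intro a b s h1 h2 hs h3 e he h4
    obtain ⟨G, hG⟩ := hCH D N a b hN h1 h2
    rw [(chain hG (hφ a) (hψ a) (hφ _) (hψ _)).1, hD]
    calc _ = s * ‖deriv (φ a ∘ G ∘ ψ (a + b)) 0‖ *
          (‖dF D.n D.c b (D.v a)‖ * (e * ‖deriv (ψ a) 0‖)) := by ring
      _ ≤ 1 * (‖dF D.n D.c b (D.v a)‖ * ‖dF D.n D.c a D.c‖) := by gcongr; exact h3 G hG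
      _ = _ := one_mul _
  set b := 2 * D.L + 4 with hb
  have h1 : 1 / (X * (2 * X)) * ‖deriv (ψ 1) 0‖ ≤ ‖dF D.n D.c 1 D.c‖ := by
    have hm : ∀ x ∈ ball (0 : ℂ) 1, ‖ψ 1 x‖ < X := fun x hx =>
      hX.bdd _ fun h => D.Pc_sub 0 _ ((hφ 1).mψ hx) (Or.inl h)
    have h2 := norm_deriv_le_div_of_mapsTo_ball (R₂ := 2 * X) (hφ 1).dψ (fun x hx => by
      rw [mem_closedBall_iff_norm]
      linarith [norm_sub_le (ψ 1 x) (ψ 1 0), hm x hx, hm 0 (mem_ball_self one_pos)]) one_pos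
    rw [div_one] at h2
    calc _ ≤ 1 / (X * (2 * X)) * (2 * X) := by gcongr
      _ = 1 / X := by field_simp
      _ ≤ _ := hX.crit
  have h2 : ∀ r i : ℕ, 1 + r + i * b ≤ N → Real.exp (i / X ^ 39) * (1 / (X * (2 * X))) *
      ‖deriv (ψ (1 + r + i * b)) 0‖ ≤ ‖dF D.n D.c (1 + r + i * b) D.c‖ := fun r i => by
    induction i with
    | zero =>
      intro h
      simpa using step 1 r 1 le_rfl (by simpa using h) zero_le_one (fun G hG => by
        rw [one_mul]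
        exact (chain hG (hφ 1) (hψ 1) (hφ _) (hψ _)).2) _
        (by positivity) h1
    | succ i ih =>
      intro h
      rw [Nat.succ_mul, ← add_assoc] at h ⊢
      have h3 := step _ b (Real.exp (1 / X ^ 39)) (by omega) h (by positivity) (fun G hG => by
        have h4 := hSTEP D X N _ G _ _ _ _ hX hE hN (by omega) h h3N hG (hφ _) (hψ _) (hφ _) (hψ _)
        have h5 := Real.one_sub_le_exp_neg (1 / X ^ 39)
        calc _ ≤ Real.exp (1 / X ^ 39) * Real.exp (-(1 / X ^ 39)) := by gcongr; exact h4.trans h5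
          _ = 1 := by rw [← Real.exp_add, add_neg_cancel, Real.exp_zero]) _ (by positivity)
        (ih (by omega))
      rwa [← mul_assoc, ← Real.exp_add, ← add_div, add_comm (1 : ℝ), ← Nat.cast_succ] at h3
  have hb0 : 0 < b := by omega
  have e : t = 1 + (t - 1) % b + (t - 1) / b * b := by
    have := Nat.mod_add_div' (t - 1) b
    omega
  have h3 := h2 ((t - 1) % b) ((t - 1) / b) (by omega)
  rw [← e] at h3
  have h4 := radius_ge (hφ t) (hdom t).op (Real.exp_pos _) (by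
    rw [hψ t]; exact hDIST D X N t hX hN hE htN)
  have h5 := num hX.big (t := t) (i := ((t - 1) / b : ℕ)) (b := b)
    (by rw [hb]; push_cast; linarith [hX.per, hX.big]) (Nat.cast_nonneg _) (by
      have := Nat.mod_lt (t - 1) hb0
      exact_mod_cast (by rw [add_mul]; omega : t ≤ ((t - 1) / b + 1) * b))
  refine le_trans ?_ h3
  rw [mul_one_div, div_mul_eq_mul_div, le_div_iff₀ (by positivity)]
  exact h5.trans (mul_le_mul_of_nonneg_left h4 (by positivity))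

end Pool.Agent.Lib.PR95
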