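import Pool.Agent.Lib.PR95.Kit

/-! Uniqueness of lifts. -/

set_option autoImplicit false

open Filter Topology Set Metric Complex Bornology N62a1eb23
open scoped Real

namespace Pool.Agent.Lib.PR95

open Pool.Agent.Lib.MP_c35c17_an

theorem st_UQ : St_UQ := by
  intro D X _ s b
  induction b with
  | zero => exact fun p q a _ _ _ h _ _ _ => h
  | succ b ih =>
    intro p q a hs hp hq h h0 ha e
    have h1 := ih (fun x => D.f (p x)) (fun x => D.f (q x)) a hs
      ((D.f_cont 1).comp_continuousOn hp) ((D.f_cont 1).comp_continuousOn hq) h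
      (fun x hx j hj => h0 x hx j (hj.trans b.lt_succ_self)) ha (by rw [e])
    refine L.eqOn_of_pow D.n_ne hs hp hq (fun x hx e' => h0 x hx b b.lt_succ_self ?_)
      (fun x hx => add_right_cancel (h1 hx)) ha e
    rw [h x hx, e', D.v_eq]

end Pool.Agent.Lib.PR95
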