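import Pool.Agent.Lib.PR95.Kit

/-! The ends of the boundary rays lie in holomorphic discs inside the piece. -/

set_option autoImplicit false

open Filter Topology Set Metric Complex Bornology N62a1eb23
open scoped Real

namespace Pool.Agent.Lib.PR95

open Pool.Agent.Lib.MP_c35c17_an

theorem st_VTX (hRAY : St_RAY) (hDOM : St_DOM) (hGAP : St_GAP) (hADJ : St_ADJ) (hSHA : St_SHA)
    (hBR : St_BR) (hUQ : St_UQ) (hLIFT : St_LIFT) (hNB : St_NB) : St_VTX := by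
  intro D X N a G T τ hX hE hN h3N hC hcyc θ hθ η hη
  set b := 2 * D.L + 4 with hb
  have h1 := hC.th θ hθ
  have hu := hC.unit θ hθ
  obtain ⟨g1, g2, g3, -⟩ := (hGAP D).2.1 θ h1
  have g0 : 0 < D.gap θ := (div_pos Real.two_pi_pos D.d_pos).trans_le g1
  have hη' : η ∈ Icc 0 (D.gap θ) := by rcases hη with rfl | rfl <;> simp [g0.le]
  have h2 : θ * exp (η * I) ∈ D.Th := by
    rcases hη with rfl | rfl
    · simpa using h1
    · exact g3
  obtain ⟨y, hy, hl⟩ := Data.Th_lands h2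
  obtain ⟨a1, a2, -, -⟩ := hADJ D y hy
  have hd := D.two_le_d
  have hd1 : 1 / D.d ≤ 1 / 2 := one_div_le_one_div_of_le two_pos hd
  have hd0 : 0 < 1 / D.d := one_div_pos.mpr D.d_pos
  set p : ℝ → ℂ := fun x => D.B (τ θ) ((x + η * I) / (D.n : ℂ) ^ b) with hp
  have hre : ∀ x : ℝ, 0 < x → 0 < ((x : ℂ) + η * I).re := fun x hx => by simpa using hx
  have hit : ∀ x : ℝ, 0 < x → D.f^[b] (p x) = D.B (θ * exp (η * I)) x := fun x hx => by
    rw [hp, D.B_iter_div hu (hre x hx), hC.root θ hθ, ← D.B_add, add_comm]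
  have hmem : ∀ x ∈ Ioo 0 (1 / D.d), D.B (θ * exp (η * I)) (x : ℝ) ∈ D.Nb D.L y :=
    fun x hx => a2 _ h2 hl x hx.1 hx.2
  have hx₀ : 1 / D.d / 2 ∈ Ioo 0 (1 / D.d) := ⟨by linarith, by linarith⟩
  have hdom := (hDOM D D.L y).2.2.2.2
  obtain ⟨h, b1, b2, b3⟩ := hBR D _ b (p (1 / D.d / 2)) hdom
    (fun j hj => (hSHA D y hy).2 N j hN (by omega)) (by rw [hit _ hx₀.1]; exact hmem _ hx₀)
  have he := hUQ D ℝ _ b (fun x : ℝ => h (D.B (θ * exp (η * I)) x)) p _ isPreconnected_Ioo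
    (b1.continuousOn.comp ((D.B_cont_real (Data.Th_norm h2)).mono Ioo_subset_Ioi_self) hmem)
    (D.B_cont_comp hu (by fun_prop) fun x hx => D.div_np_pos (hre x hx.1) b)
    (fun x hx => by rw [b3 _ (hmem x hx), hit x hx.1])
    (fun x hx j _ e => D.v_Bas j (by
      rw [← e, b3 _ (hmem x hx)]; exact D.B_mem_Bas_real (Data.Th_norm h2) hx.1))
    hx₀ (by rw [← hit _ hx₀.1, b2])
  have hcl : ∀ x ∈ Ioo 0 (1 / D.d), p x ∈ closure (G '' D.Y (a + b)) := fun x hx => by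
    have h3 : (x : ℂ) + η * I ∈ closure (D.Rect θ) := by
      rw [Data.Rect, closure_reProdIm, closure_Ioo zero_ne_one, closure_Ioo g0.ne]
      exact ⟨show _ ∈ Icc _ _ by simpa using ⟨hx.1.le, by linarith [hx.2]⟩,
        show _ ∈ Icc _ _ by simpa using hη'⟩
    exact ContinuousWithinAt.mem_closure (f := fun ω => D.B (τ θ) (ω / (D.n : ℂ) ^ b))
      (ContinuousAt.comp (f := fun ω : ℂ => ω / (D.n : ℂ) ^ b)
        (D.B_contAt hu (D.div_np_pos (hre x hx.1) b)) (by fun_prop)).continuousWithinAt h3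
      (hC.inn θ hθ)
  have hy₀ : h y ∈ closure (G '' D.Y (a + b)) := by
    refine isClosed_closure.mem_of_tendsto (((b1.continuousOn.continuousAt
      (hdom.op.mem_nhds a1)).tendsto).comp hl) ?_
    filter_upwards [Ioo_mem_nhdsGT hd0] with x hx
    rw [Function.comp_apply, show h _ = p x from he hx]
    exact hcl x hx
  have hB : h y ∉ D.Bas := fun h3 => Data.Cyc_Bas hy (b3 y a1 ▸ (D.iter_mem_Bas b).mpr h3)
  have hout : ∀ w ∈ h '' D.Nb D.L y, w ∉ D.Gam 0 := by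
    rintro _ ⟨w, hw, rfl⟩ h3
    refine hLIFT D b h y hy b1.continuousOn b3 w hw (D.mem_Xs.mpr ((D.mem_Gam.mp h3).imp
      (fun h4 => D.Out_mono (Nat.zero_le _) h4) ?_))
    rintro ⟨σ, h4, h5⟩
    exact ⟨σ, Data.Ang_mono (Nat.zero_le _) h4,
      fun h6 => hcyc _ hy₀ ((hRAY D).2.2.1 0 σ h4 _ h6 hB), h5⟩
  have hY : h '' D.Nb D.L y ⊆ D.Y a := D.subset_Pc (hdom.conn.image _ b1.continuousOn) hout
    ⟨_, hmem _ hx₀, he hx₀⟩ (hC.wide θ hθ _ ⟨show _ ∈ Ioo _ _ by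
      simp only [add_re, ofReal_re, mul_re, I_re, I_im, ofReal_im]
      constructor <;> linarith, show _ ∈ Ioo _ _ by
      simp only [add_im, ofReal_re, mul_im, I_re, I_im, ofReal_im]
      constructor <;> linarith [hη'.1, hη'.2, Real.pi_lt_d2]⟩)
  set r : ℝ := Real.exp (-(3 * X ^ 3)) with hr
  have hr0 : 0 < r := Real.exp_pos _
  have hrc : (r : ℂ) ≠ 0 := by exact_mod_cast hr0.ne'
  have hm : MapsTo (fun u : ℂ => y + r * u) (ball 0 1) (D.Nb D.L y) := fun u hu =>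
    hNB D X hX y hy (by
      rw [mem_ball_iff_norm, add_sub_cancel_left, norm_mul, norm_real, Real.norm_of_nonneg hr0.le]
      exact mul_lt_of_lt_one_right hr0 (mem_ball_zero_iff.mp hu))
  refine ⟨fun u => h (y + r * u), fun x => (D.B (θ * exp (η * I)) x - y) / r,
    b1.comp (by fun_prop) hm, fun u hu => hY ⟨_, hm hu, rfl⟩, fun x x0 x1 => ⟨?_, ?_⟩⟩
  · rw [norm_div, norm_real, Real.norm_of_nonneg hr0.le, div_le_iff₀ hr0]
    linarith [hE _ h2 y hl x x0 x1]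
  · simp only
    rw [mul_div_cancel₀ _ hrc, add_sub_cancel]
    refine he ⟨x0, x1.trans_lt (lt_of_lt_of_le ?_ (one_div_le_one_div_of_le D.d_pos hX.d_le))⟩
    rw [one_div, ← Real.exp_neg, Real.exp_lt_exp, neg_lt_neg_iff]
    exact pow_lt_pow_right₀ (by linarith [hX.big]) (by norm_num)

end Pool.Agent.Lib.PR95
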