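import Pool.Agent.Lib.PR95.Defs

/-! Statements of the blocks of the polynomial return time theorem. -/

set_option autoImplicit false

open Filter Topology Set Metric Complex Bornology N62a1eb23
open scoped Real

namespace Pool.Agent.Lib.PR95

open Pool.Agent.Lib.MP_c35c17_an

/-- Components of the complement of a closed connected neighbourhood of infinity. -/
def St_FULL : Prop := ∀ (A : Set ℂ) (R : ℝ) (w : ℂ), IsClosed A → IsPreconnected A →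
  (∀ x, x ∉ A → ‖x‖ < R) → Dom (connectedComponentIn Aᶜ w) ∧
    closure (connectedComponentIn Aᶜ w) ⊆ connectedComponentIn Aᶜ w ∪ A

/-- The chart of the basin is proper at infinity. -/
def St_OUT : Prop := ∀ D : Data,
  (∀ S : Set ℂ, IsClosed S → S ⊆ {u | 1 < ‖u‖} → IsClosed (D.Φ '' S)) ∧
  (∀ m, IsPreconnected (D.Out m)) ∧ ∃ R : ℝ, ∀ w, w ∉ D.Out 0 → ‖w‖ < R

/-- Closures of rays. -/
def St_RAY : Prop := ∀ D : Data,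
  (∀ τ : ℂ, ‖τ‖ = 1 → ∀ w ∈ closure (D.Ray τ), w ∈ D.Bas → w ∈ D.Ray τ) ∧
  (∀ τ y : ℂ, ‖τ‖ = 1 → D.Lands τ y → ∀ w ∈ closure (D.Ray τ), w ∈ D.Ray τ ∨ w = y) ∧
  (∀ m, ∀ τ ∈ D.Ang m, ∀ w ∈ closure (D.Ray τ), w ∉ D.Bas → D.f^[m] w ∈ D.Cyc) ∧
  (∀ m, ∀ w ∈ D.Gam m, w ∉ D.Bas → D.f^[m] w ∈ D.Cyc) ∧
  ∀ m, ∀ τ ∈ D.Ang m, ∀ y ∈ D.Cyc, y ∈ closure (D.Ray τ) → τ ∈ D.Th ∧ D.Lands τ y

/-- Pieces and vertex neighbourhoods are bounded simply connected domains. -/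
def St_DOM : Prop := ∀ (D : Data) (m : ℕ) (w : ℂ), IsClosed (D.Gam m) ∧ IsClosed (D.Xs m w) ∧
  Dom (D.Pc m w) ∧ closure (D.Pc m w) ⊆ D.Pc m w ∪ D.Gam m ∧ Dom (D.Nb m w)

/-- The Markov property. -/
def St_PRE : Prop := ∀ D : Data, (∀ m j w, D.f^[j] w ∈ D.Gam m ↔ w ∈ D.Gam (m + j)) ∧
  (∀ m j w, MapsTo D.f^[j] (D.Pc (m + j) w) (D.Pc m (D.f^[j] w))) ∧
  (∀ m j w, MapsTo D.f^[j] (D.Pc (m + j) w) (D.Pc 0 (D.f^[j] w))) ∧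
  ∀ m j, D.v j ∉ D.Gam m

/-- Gaps between the angles of the cycle. -/
def St_GAP : Prop := ∀ D : Data,
  (∀ θ ∈ D.Th, ∀ t : ℝ, t ≠ 0 → |t| < 2 * π / D.d → θ * exp (t * I) ∉ D.Th) ∧
  (∀ θ ∈ D.Th, 2 * π / D.d ≤ D.gap θ ∧ D.gap θ ≤ 2 * π ∧ θ * exp (D.gap θ * I) ∈ D.Th ∧
    ∀ t : ℝ, 0 < t → t < D.gap θ → θ * exp (t * I) ∉ D.Th) ∧
  ∀ σ : ℂ, ‖σ‖ = 1 → σ ∉ D.Th → ∃ θ ∈ D.Th, ∃ t : ℝ, 0 < t ∧ t < D.gap θ ∧ σ = θ * exp (t * I)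

/-- Strips. -/
def St_STR : Prop := ∀ (D : Data) (m : ℕ),
  (∀ τ ∈ D.Ang m, (D.Str m τ).Nonempty ∧ IsPreconnected (D.Str m τ) ∧
    (∀ w ∈ D.Str m τ, w ∉ D.Gam m) ∧ ∀ w ∈ D.Str m τ, D.Str m τ ⊆ D.Pc m w) ∧
  ∀ w ∈ D.Bas, w ∉ D.Gam m → ∃ τ ∈ D.Ang m, w ∈ D.Str m τ

/-- Points next to a ray of the cycle visit the piece of the critical value. -/
def St_VIS : Prop := ∀ (D : Data) (w : ℂ), D.Near w → ∃ j, 1 ≤ j ∧ j ≤ D.L ∧ D.f^[j] w ∈ D.Y 0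

/-- Pieces inside a vertex neighbourhood are adjacent to a ray of the cycle. -/
def St_ADJ : Prop := ∀ D : Data, ∀ y ∈ D.Cyc, y ∈ D.Nb D.L y ∧
  (∀ θ ∈ D.Th, D.Lands θ y → ∀ t : ℝ, 0 < t → t < 1 / D.d → D.B θ t ∈ D.Nb D.L y) ∧
  (∀ w ∈ D.Nb D.L y, w ∈ D.Gam D.L → w = y ∨ ∃ θ ∈ D.Th, D.Lands θ y ∧
    ∃ t : ℝ, 0 < t ∧ t < 1 / D.d ∧ w = D.B θ t) ∧
  ∀ w ∈ D.Nb D.L y, w ∉ D.Gam D.L → ∃ θ ∈ D.Th, ∃ s : ℝ, (s = 1 ∨ s = -1) ∧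
    D.smp θ s ∈ D.Pc D.L w

/-- No long shadowing of the cycle. -/
def St_SHA : Prop := ∀ D : Data, ∀ y ∈ D.Cyc,
  (∀ w ∈ D.Nb D.L y, w ∉ D.Gam D.L → ∃ j, 1 ≤ j ∧ j ≤ D.L ∧ D.f^[j] w ∈ D.Y 0) ∧
  ∀ N j, D.Esc N → j + D.L ≤ N → D.v j ∉ D.Nb D.L y

/-- Existence of inverse branches. -/
def St_BR : Prop := ∀ (D : Data) (U : Set ℂ) (b : ℕ) (y : ℂ), Dom U → (∀ j < b, D.v j ∉ U) →
  D.f^[b] y ∈ U → ∃ h : ℂ → ℂ, DifferentiableOn ℂ h U ∧ h (D.f^[b] y) = y ∧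
    ∀ w ∈ U, D.f^[b] (h w) = w

/-- Uniqueness of lifts. -/
def St_UQ : Prop := ∀ (D : Data) (X : Type) [TopologicalSpace X] (s : Set X) (b : ℕ)
  (p q : X → ℂ) (a : X), IsPreconnected s → ContinuousOn p s → ContinuousOn q s →
  (∀ x ∈ s, D.f^[b] (p x) = D.f^[b] (q x)) → (∀ x ∈ s, ∀ j < b, D.f^[b] (p x) ≠ D.v j) →
  a ∈ s → p a = q a → EqOn p q s

/-- Inverse branches map vertex neighbourhoods into vertex neighbourhoods. -/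
def St_LIFT : Prop := ∀ (D : Data) (b : ℕ) (h : ℂ → ℂ), ∀ y ∈ D.Cyc,
  ContinuousOn h (D.Nb D.L y) → (∀ w ∈ D.Nb D.L y, D.f^[b] (h w) = w) →
    ∀ w ∈ D.Nb D.L y, h w ∉ D.Xs (D.L + b) (h y)

/-- A piece contains few strips. -/
def St_CNT : Prop := ∀ (D : Data) (N m : ℕ) (w : ℂ), D.Esc N → m ≤ N → w ∉ D.Gam m →
  {τ ∈ D.Ang m | D.Str m τ ⊆ D.Pc m w}.ncard ≤ D.n * D.L

/-- Local estimates. -/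
def St_LOC : Prop := ∀ (D : Data) (X : ℝ), D.Big X →
  (∀ y ∈ D.K, ∀ (j : ℕ) (w : ℂ), X ^ j * ‖w - y‖ ≤ 1 →
    ‖D.f^[j] w - D.f^[j] y‖ ≤ X ^ j * ‖w - y‖) ∧
  ∀ y ∈ D.Cyc, ∀ w, ‖w - y‖ ≤ Real.exp (-X ^ 3) →
    (1 + 1 / (2 * X)) * ‖w - y‖ ≤ ‖D.f^[D.L] w - y‖

/-- Weak Koebe distortion in the chart of the basin. -/
def St_KO : Prop := ∀ (D : Data) (τ y : ℂ), ‖τ‖ = 1 → y ∉ D.Bas →
  (∀ x x' ρ : ℝ, 0 < x → x ≤ 1 → 0 < x' → x' ≤ 1 → x ≤ ρ * x' → x' ≤ ρ * x →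
    ‖D.B τ x - y‖ ≤ ρ ^ 384 * ‖D.B τ x' - y‖) ∧
  ∀ s x η : ℝ, 0 < s → s ≤ 1 → 0 < x → x ≤ 1 → |η| ≤ 13 →
    x ^ 768 * ‖D.B τ (x * s : ℝ) - y‖ ≤ Real.exp 5000 * ‖D.B τ ((x + η * I) * s) - y‖

/-- A ray of the cycle that comes close to the cycle stays close. -/
def St_OIS : Prop := ∀ (D : Data) (X : ℝ), D.Big X → ∀ θ ∈ D.Th, ∀ y ∈ D.Cyc, ∀ t₀ : ℝ, 0 < t₀ →
  t₀ ≤ 1 → ‖D.B θ t₀ - y‖ ≤ Real.exp (-(2 * X ^ 3)) → ∀ (i : ℕ) (t : ℝ), 0 < t →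
    t ≤ t₀ / D.d ^ i → (1 + 1 / (2 * X)) ^ i * ‖D.B θ t - y‖ ≤ Real.exp (X ^ 3) * ‖D.B θ t₀ - y‖

/-- Vertex neighbourhoods contain discs of definite size. -/
def St_NB : Prop := ∀ (D : Data) (X : ℝ), D.Big X → ∀ y ∈ D.Cyc,
  ball y (Real.exp (-(3 * X ^ 3))) ⊆ D.Nb D.L y

/-- A point near `z` that escapes fast. -/
def St_FAST : Prop := ∀ (D : Data) (X : ℝ), D.Big X → ∃ (τ : ℂ) (t : ℝ), ‖τ‖ = 1 ∧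
  Real.exp (-(11 * X ^ 8)) ≤ t ∧ ‖D.B τ t - D.z‖ < Real.exp (-(4 * X ^ 5))

/-- The inverse branch fixing `z`. -/
def St_BACK : Prop := ∀ (D : Data) (X : ℝ) (N : ℕ), D.Big X → D.Esc N → 2 * D.L ≤ N →
  ∃ H, D.Back X H

/-- The pigeonhole on strips. -/
def St_PIG : Prop := ∀ (D : Data) (X : ℝ) (N : ℕ), D.Big X → D.Esc N → 2 * D.L ≤ N →
  (∃ θ ∈ D.Th, ∃ t : ℝ, Real.exp (-(11 * X ^ 8)) ≤ t ∧ t ≤ 1 ∧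
    ‖D.B θ t - D.z‖ < Real.exp (-(3 * X ^ 3))) ∨ ∃ τ a b p, D.Pair X τ a b p

/-- Two points in one strip give a periodic access. -/
def St_ACC : Prop := ∀ (D : Data) (X : ℝ) (H : ℂ → ℂ) (τ a b : ℂ) (p : ℕ), D.Big X → D.Back X H →
  D.Pair X τ a b p → ∃ (σ : ℂ) (η : ℝ), ‖σ‖ = 1 ∧ σ ^ D.n ^ (p * D.L) = σ ∧ |η| ≤ 13 ∧
    ∀ j : ℕ, (1 + 1 / (2 * X)) ^ j * ‖D.B σ ((b.re + η * I) * (1 / (D.d ^ p) ^ j : ℝ)) - D.z‖ ≤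
      Real.exp (-(3 * X ^ 3))

/-- One ray of the cycle comes close to `z` early. -/
def St_CLS : Prop := ∀ (D : Data) (X : ℝ) (N : ℕ), D.Big X → D.Esc N → 2 * D.L ≤ N → D.Only →
  ∃ θ ∈ D.Th, ∃ t : ℝ, Real.exp (-X ^ 16) ≤ t ∧ t ≤ 1 ∧
    ‖D.B θ t - D.z‖ ≤ Real.exp (-(2 * X ^ 3))

/-- The ends of the rays of the cycle are close to the cycle. -/
def Data.Ent (D : Data) (X : ℝ) : Prop := ∀ θ ∈ D.Th, ∀ y, D.Lands θ y → ∀ t : ℝ, 0 < t →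
  t ≤ Real.exp (-X ^ 17) → ‖D.B θ t - y‖ ≤ Real.exp (-(3 * X ^ 3)) / 4

/-- Polynomial entering time. -/
def St_ENT : Prop := ∀ (D : Data) (X : ℝ) (N : ℕ), D.Big X → D.Esc N → 2 * D.L ≤ N → D.Only →
  D.Ent X

/-- The critical orbit is well inside its pieces. -/
def St_DIST : Prop := ∀ (D : Data) (X : ℝ) (N j : ℕ), D.Big X → D.Esc N → D.Ent X →
  j + D.L ≤ N → ball (D.v j) (Real.exp (-X ^ 18)) ⊆ D.Y j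

/-- Inverse branches along the critical orbit. -/
def St_CH : Prop := ∀ (D : Data) (N a b : ℕ), D.Esc N → 1 ≤ a → a + b ≤ N → ∃ G, D.Chain a b G

/-- The image of a long branch in the charts. -/
def St_SEP1 : Prop := ∀ (D : Data) (N a : ℕ) (G : ℂ → ℂ), D.Esc N → 1 ≤ a →
  a + (2 * D.L + 4) ≤ N → D.Chain a (2 * D.L + 4) G → ∃ T τ, D.Charts a (2 * D.L + 4) G T τ

/-- The image of a long branch is compactly contained in the piece. -/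
def St_SEP2 : Prop := ∀ (D : Data) (N a : ℕ) (G : ℂ → ℂ) (T : Finset ℂ) (τ : ℂ → ℂ), D.Esc N →
  1 ≤ a → a + (2 * D.L + 4) ≤ N → D.Chain a (2 * D.L + 4) G → D.Charts a (2 * D.L + 4) G T τ →
    IsOpen (G '' D.Y (a + (2 * D.L + 4))) ∧ closure (G '' D.Y (a + (2 * D.L + 4))) ⊆ D.Y a ∧
    (∀ y ∈ closure (G '' D.Y (a + (2 * D.L + 4))), y ∉ D.Cyc) ∧
    (∀ y ∈ closure (G '' D.Y (a + (2 * D.L + 4))), y ∉ G '' D.Y (a + (2 * D.L + 4)) →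
      D.f^[2 * D.L + 4] y ∈ D.Cyc ∨ ∃ θ ∈ T, ∃ ω ∈ Sides (D.gap θ),
        y = D.B (τ θ) (ω / (D.n : ℂ) ^ (2 * D.L + 4))) ∧
    ∀ θ ∈ T, ∀ ω ∈ Sides (D.gap θ),
      D.B (τ θ) (ω / (D.n : ℂ) ^ (2 * D.L + 4)) ∉ G '' D.Y (a + (2 * D.L + 4))

/-- The ends of the boundary rays lie in holomorphic discs inside the piece. -/
def St_VTX : Prop := ∀ (D : Data) (X : ℝ) (N a : ℕ) (G : ℂ → ℂ) (T : Finset ℂ) (τ : ℂ → ℂ),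
  D.Big X → D.Ent X → D.Esc N → 3 * D.L + 4 ≤ N → D.Charts a (2 * D.L + 4) G T τ →
  (∀ y ∈ closure (G '' D.Y (a + (2 * D.L + 4))), y ∉ D.Cyc) →
    ∀ θ ∈ T, ∀ η : ℝ, η = 0 ∨ η = D.gap θ → ∃ (k : ℂ → ℂ) (u : ℝ → ℂ),
      DifferentiableOn ℂ k (ball 0 1) ∧ MapsTo k (ball 0 1) (D.Y a) ∧
      ∀ x : ℝ, 0 < x → x ≤ Real.exp (-X ^ 17) → ‖u x‖ ≤ 1 / 4 ∧
        k (u x) = D.B (τ θ) ((x + η * I) / (D.n : ℂ) ^ (2 * D.L + 4))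

/-- The diameter of the image of the three sides. -/
def St_DIAM : Prop := ∀ (H : ℂ → ℂ) (a T s : ℝ), 0 ≤ a → a ≤ 2 * π → 0 ≤ T → 0 ≤ s →
  DifferentiableOn ℂ H (Ioo (0 : ℝ) 4 ×ℂ Ioo (-2 : ℝ) 9) →
  MapsTo H (Ioo (0 : ℝ) 4 ×ℂ Ioo (-2 : ℝ) 9) (ball 0 1) →
  (∀ ω ∈ Sides a, 1 - s ≤ ‖H ω‖) →
  (∀ η : ℝ, η = 0 ∨ η = a → ∃ (k : ℂ → ℂ) (u : ℝ → ℂ), DifferentiableOn ℂ k (ball 0 1) ∧
    MapsTo k (ball 0 1) (ball 0 1) ∧ ∀ x : ℝ, 0 < x → x ≤ Real.exp (-T) →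
      ‖u x‖ ≤ 1 / 4 ∧ k (u x) = H (x + η * I)) →
  ∀ ω ∈ Sides a, ∀ ω' ∈ Sides a, ‖H ω - H ω'‖ ≤ s * (4 * T + 70)

/-- Few small sets block all radii only if a point far from the circle is omitted. -/
def St_CON : Prop := ∀ (A : ℂ → ℂ) (T : Finset ℂ) (E : ℂ → Set ℂ) (S : Set ℂ) (s Q : ℝ),
  DifferentiableOn ℂ A (ball 0 1) → MapsTo A (ball 0 1) (ball 0 1) → A 0 = 0 → S.Finite →
  (0 : ℂ) ∉ S → 0 < s → 0 ≤ Q →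
  (∀ α : ℝ, ∃ r : ℝ, 0 ≤ r ∧ r < 1 ∧
    ((r : ℂ) * exp (α * I) ∈ S ∨ ∃ θ ∈ T, (r : ℂ) * exp (α * I) ∈ E θ)) →
  (∀ θ ∈ T, ∀ x ∈ E θ, x ∉ A '' ball 0 1) →
  ((∀ x : ℂ, ‖x‖ < 1 → x ∉ A '' ball 0 1 → 1 - s ≤ ‖x‖) →
    ∀ θ ∈ T, ∀ x ∈ E θ, ∀ x' ∈ E θ, ‖x - x'‖ ≤ s * Q) →
  4 * (T.card + 1) * (s * (Q + 2)) < 1 → ‖deriv A 0‖ ≤ 1 - s ^ 2 / 32

/-- A long branch contracts the hyperbolic metric by a definite amount. -/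
def St_STEP : Prop := ∀ (D : Data) (X : ℝ) (N a : ℕ) (G φ ψ φ' ψ' : ℂ → ℂ), D.Big X → D.Ent X →
  D.Esc N → 1 ≤ a → a + (2 * D.L + 4) ≤ N → 3 * D.L + 4 ≤ N → D.Chain a (2 * D.L + 4) G →
  Q.Bihol φ ψ (D.Y a) (ball 0 1) → ψ 0 = D.v a →
  Q.Bihol φ' ψ' (D.Y (a + (2 * D.L + 4))) (ball 0 1) → ψ' 0 = D.v (a + (2 * D.L + 4)) →
    ‖deriv (φ ∘ G ∘ ψ') 0‖ ≤ 1 - 1 / X ^ 39

/-- Growth of the derivative along the critical orbit. -/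
def St_TEL : Prop := ∀ (D : Data) (X : ℝ) (N t : ℕ), D.Big X → D.Ent X → D.Esc N →
  3 * D.L + 4 ≤ N → 1 ≤ t → t + D.L ≤ N →
    Real.exp (t / X ^ 41 - X ^ 19) ≤ ‖dF D.n D.c t D.c‖

/-- The bound in terms of `X`. -/
def St_FIN : Prop := ∀ (n : ℕ) (c : ℂ), 2 ≤ n → c ∈ multibrotSet n →
  c ∉ closure {c | ∃ m z, IsAttractingCycle (fun z ↦ z ^ n + c) m z} →
    ∃ X₀ : ℝ, ∀ (D : Data) (X : ℝ) (N : ℕ), D.n = n → D.c = c → X₀ ≤ X → D.Big X → D.Esc N →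
      D.Only → (N : ℝ) ≤ 2 * X ^ 110

/-- The constants that depend on the parameter only. -/
def St_BIG : Prop := ∀ D₀ : Data, D₀.c ≠ 0 → ∃ X₁ : ℝ, ∀ (D : Data) (X : ℝ),
  D.n = D₀.n → D.c = D₀.c → D.Φ = D₀.Φ → X₁ ≤ X → (D.L : ℝ) ≤ X →
  (∀ y ∈ D.Cyc, 1 + 1 / X ≤ ‖dF D.n D.c D.L y‖) → D.Big X

/-- Misiurewicz parameters are in the closure of the hyperbolic parameters. -/
def St_MIS : Prop := ∀ (n : ℕ) (c y : ℂ) (k j : ℕ), 2 ≤ n → c ∈ multibrotSet n → 0 < k →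
  (F n c)^[k] y = y → 1 < ‖dF n c k y‖ → (F n c)^[j] c = y →
    c ∈ closure {c | ∃ m z, IsAttractingCycle (fun z ↦ z ^ n + c) m z}

end Pool.Agent.Lib.PR95
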