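import Pool.Agent.Lib.MP_c35c17_an.LUI
import Pool.Agent.Lib.MP_c35c17_an.Cor
import Pool.Agent.Lib.MP_c35c17_an.QJen

/-! Definitions for the polynomial return time theorem. -/

set_option autoImplicit false

open Filter Topology Set Metric Complex Bornology N62a1eb23
open scoped Real

namespace Pool.Agent.Lib.PR95

open Pool.Agent.Lib.MP_c35c17_an

/-- A parameter with a cycle of external rays landing on a repelling cycle off the critical orbit. -/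
structure Data where
  n : ℕ
  L : ℕ
  c : ℂ
  Φ : ℂ → ℂ
  ζ : ℂ
  z : ℂ
  hn : 2 ≤ n
  hL : 0 < L
  hc : c ∈ multibrotSet n
  bot : MP_c35c17_an.L.Bot n c 1 Φ
  nz : ‖ζ‖ = 1
  per : ζ ^ n ^ L = ζ
  land : Tendsto (fun t : ℝ => Φ (ζ * exp t)) (𝓝[>] 0) (𝓝 z)
  rep : ∀ i, 1 < ‖dF n c L ((F n c)^[i] z)‖
  mis : ∀ i j, (F n c)^[j] c ≠ (F n c)^[i] z

/-- Bounded simply connected domains. -/
structure Dom (U : Set ℂ) : Prop where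
  op : IsOpen U
  conn : IsPreconnected U
  full : Q.Full U
  bdd : IsBounded U

namespace Data

variable (D : Data)

/-- The polynomial. -/
abbrev f : ℂ → ℂ := F D.n D.c

/-- The orbit of the critical value. -/
noncomputable def v (j : ℕ) : ℂ := D.f^[j] D.c

/-- The degree of the return map of the rays. -/
noncomputable def d : ℝ := (D.n : ℝ) ^ D.L

/-- The cycle of angles. -/
def Th : Set ℂ := {θ | ∃ i, θ = D.ζ ^ D.n ^ i}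

/-- The angles of depth `m`. -/
def Ang (m : ℕ) : Set ℂ := {τ | τ ^ D.n ^ m ∈ D.Th}

/-- The repelling cycle. -/
def Cyc : Set ℂ := {y | ∃ i, y = D.f^[i] D.z}

/-- The points with bounded orbit. -/
def K : Set ℂ := {w | ∀ j, ‖D.f^[j] w‖ ≤ 5}

/-- The logarithmic chart of the basin of infinity based at the angle `τ`. -/
noncomputable def B (τ ω : ℂ) : ℂ := D.Φ (τ * exp ω)

/-- The ray of angle `τ` lands at `y`. -/
def Lands (τ y : ℂ) : Prop := Tendsto (fun t : ℝ => D.B τ t) (𝓝[>] 0) (𝓝 y)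

/-- The ray of angle `τ`. -/
def Ray (τ : ℂ) : Set ℂ := (fun t : ℝ => D.B τ t) '' Ioi 0

/-- The basin of infinity. -/
def Bas : Set ℂ := D.Φ '' {u | 1 < ‖u‖}

/-- The outside of the equipotential of depth `m`. -/
def Out (m : ℕ) : Set ℂ := D.Φ '' {u | Real.exp (1 / (D.n : ℝ) ^ m) ≤ ‖u‖}

/-- The puzzle boundary of depth `m`. -/
def Gam (m : ℕ) : Set ℂ := D.Out m ∪ ⋃ τ ∈ D.Ang m, closure (D.Ray τ)

/-- The puzzle boundary of depth `m` without the rays through `y`. -/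
def Xs (m : ℕ) (y : ℂ) : Set ℂ :=
  D.Out m ∪ ⋃ τ ∈ {τ ∈ D.Ang m | y ∉ closure (D.Ray τ)}, closure (D.Ray τ)

/-- The puzzle piece of depth `m` around `w`. -/
def Pc (m : ℕ) (w : ℂ) : Set ℂ := connectedComponentIn (D.Gam m)ᶜ w

/-- The union of the pieces of depth `m` around the vertex `y`. -/
def Nb (m : ℕ) (y : ℂ) : Set ℂ := connectedComponentIn (D.Xs m y)ᶜ y

/-- The piece of depth zero around the `t`-th point of the critical orbit. -/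
def Y (t : ℕ) : Set ℂ := D.Pc 0 (D.v t)

/-- The distance to the next angle of the cycle. -/
noncomputable def gap (θ : ℂ) : ℝ := sInf {t : ℝ | 0 < t ∧ θ * exp (t * I) ∈ D.Th}

/-- The rectangle between an angle of the cycle and the next one. -/
def Rect (θ : ℂ) : Set ℂ := Ioo 0 1 ×ℂ Ioo 0 (D.gap θ)

/-- The strip of depth `m` with first angle `τ`. -/
def Str (m : ℕ) (τ : ℂ) : Set ℂ :=
  (fun ω => D.B τ (ω / (D.n : ℂ) ^ m)) '' D.Rect (τ ^ D.n ^ m)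

/-- Points of the basin next to a ray of the cycle. -/
def Near (w : ℂ) : Prop := ∃ θ ∈ D.Th, ∃ ω : ℂ, 0 < ω.re ∧ ω.re < 1 / D.d ∧ ω.im ≠ 0 ∧
  |ω.im| < 2 * π / D.d ^ 2 ∧ w = D.B θ ω

/-- A sample point on the side `s` of the ray `θ`. -/
noncomputable def smp (θ : ℂ) (s : ℝ) : ℂ :=
  D.B θ ((1 / (2 * D.d) : ℝ) + (s * (π / D.d ^ 2) : ℝ) * I)

/-- The critical value does not return to its piece before time `N`. -/
def Esc (N : ℕ) : Prop := ∀ j, 1 ≤ j → j ≤ N → D.v j ∉ D.Y 0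

/-- All periodic rays landing at `z` are in the cycle. -/
def Only : Prop :=
  ∀ ξ : ℂ, ‖ξ‖ = 1 → (∃ p, 0 < p ∧ ξ ^ D.n ^ p = ξ) → D.Lands ξ D.z → ξ ∈ D.Th

/-- The number `X` dominates all constants. -/
structure Big (X : ℝ) : Prop where
  big : 1000 ≤ X
  lip : (D.n : ℝ) * 6 ^ (D.n - 1) ≤ X
  per : (D.L : ℝ) ≤ X
  mult : ∀ y ∈ D.Cyc, 1 + 1 / X ≤ ‖dF D.n D.c D.L y‖
  far : ∀ τ : ℂ, ‖τ‖ = 1 → ∀ t T : ℝ, 1 ≤ T → Real.exp (-T) ≤ t → ∀ y ∈ D.K,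
    Real.exp (-(X * T)) ≤ ‖D.B τ t - y‖
  bdd : ∀ w, w ∉ D.Out 0 → ‖w‖ < X
  crit : 1 / X ≤ ‖dF D.n D.c 1 D.c‖

/-- The inverse branch along the critical orbit from time `a + b` to time `a`. -/
structure Chain (a b : ℕ) (G : ℂ → ℂ) : Prop where
  diff : DifferentiableOn ℂ G (D.Y (a + b))
  base : G (D.v (a + b)) = D.v a
  inv : ∀ w ∈ D.Y (a + b), D.f^[b] (G w) = w
  mem : ∀ w ∈ D.Y (a + b), ∀ j ≤ b, D.f^[j] (G w) ∈ D.Y (a + j)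

/-- The description of the image of an inverse branch in the charts of the basin. -/
structure Charts (a b : ℕ) (G : ℂ → ℂ) (T : Finset ℂ) (τ : ℂ → ℂ) : Prop where
  card : T.card ≤ D.L
  th : ∀ θ ∈ T, θ ∈ D.Th
  unit : ∀ θ ∈ T, ‖τ θ‖ = 1
  root : ∀ θ ∈ T, τ θ ^ D.n ^ b = θ
  wide : ∀ θ ∈ T, ∀ ω ∈ Ioo (0 : ℝ) 4 ×ℂ Ioo (-2 : ℝ) 9, D.B (τ θ) (ω / (D.n : ℂ) ^ b) ∈ D.Y a
  inn : ∀ θ ∈ T, ∀ ω ∈ D.Rect θ, D.B (τ θ) (ω / (D.n : ℂ) ^ b) ∈ G '' D.Y (a + b)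
  cov : ∀ y ∈ closure (G '' D.Y (a + b)), y ∈ D.Bas → ∃ θ ∈ T,
    ∃ ω ∈ Ioc (0 : ℝ) 1 ×ℂ Icc (0 : ℝ) (D.gap θ), y = D.B (τ θ) (ω / (D.n : ℂ) ^ b)

/-- The inverse branch of the return map fixing `z`. -/
structure Back (X : ℝ) (H : ℂ → ℂ) : Prop where
  cont : ContinuousOn H (D.Nb D.L D.z)
  maps : MapsTo H (D.Nb D.L D.z) (D.Nb D.L D.z)
  inv : ∀ w ∈ D.Nb D.L D.z, D.f^[D.L] (H w) = w
  contr : ∀ w ∈ ball D.z (Real.exp (-(3 * X ^ 3))), (1 + 1 / (2 * X)) * ‖H w - D.z‖ ≤ ‖w - D.z‖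
  left : ∀ w, X ^ D.L * ‖w - D.z‖ < Real.exp (-(3 * X ^ 3)) → H (D.f^[D.L] w) = w

/-- Two points of one orbit near `z` in one strip. -/
structure Pair (X : ℝ) (τ a b : ℂ) (p : ℕ) : Prop where
  unit : ‖τ‖ = 1
  pos : 0 < p
  le : (p : ℝ) ≤ 2 * X ^ 3
  ha : a ∈ Ioo (0 : ℝ) (1 / 2) ×ℂ Ioo (0 : ℝ) π
  hb : b ∈ Ioo (0 : ℝ) (1 / 2) ×ℂ Ioo (0 : ℝ) π
  fast : Real.exp (-(11 * X ^ 8)) ≤ b.re
  seg : ∀ ω ∈ segment ℝ a b, D.B τ ω ∈ D.Nb D.L D.z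
  orb : D.f^[p * D.L] (D.B τ a) = D.B τ b
  near : ∀ i < p, X ^ D.L * ‖D.f^[i * D.L] (D.B τ a) - D.z‖ < Real.exp (-(3 * X ^ 3))
  last : ‖D.B τ b - D.z‖ < Real.exp (-(3 * X ^ 3))

end Data

/-- Bottom, top and right side of a rectangle. -/
def Sides (a : ℝ) : Set ℂ :=
  {ω | 0 < ω.re ∧ ω.re ≤ 1 ∧ 0 ≤ ω.im ∧ ω.im ≤ a ∧ (ω.re = 1 ∨ ω.im = 0 ∨ ω.im = a)}

end Pool.Agent.Lib.PR95
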