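import Pool.Agent.Lib.PR95.Blue

/-! Basic tools for the polynomial return time theorem. -/

set_option autoImplicit false

open Filter Topology Set Metric Complex Bornology N62a1eb23
open scoped Real

namespace Pool.Agent.Lib.PR95

open Pool.Agent.Lib.MP_c35c17_an

theorem convex_rect {s t : Set ℝ} (hs : Convex ℝ s) (ht : Convex ℝ t) : Convex ℝ (s ×ℂ t) :=
  (hs.linear_preimage reLm).inter (ht.linear_preimage imLm)

theorem conn_rect {a b c d : ℝ} : IsPreconnected (Ioo a b ×ℂ Ioo c d) :=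
  (convex_rect (convex_Ioo a b) (convex_Ioo c d)).isPreconnected

/-- A continuous function on an interval that starts below a level it never takes stays below. -/
theorem stay_lt {g : ℝ → ℝ} {s : Set ℝ} (hs : IsPreconnected s) (hg : ContinuousOn g s) {a ρ : ℝ}
    (ha : a ∈ s) (h0 : g a < ρ) (h : ∀ x ∈ s, g x ≠ ρ) : ∀ x ∈ s, g x < ρ := fun x hx =>
  not_le.mp fun h1 => by
    obtain ⟨y, hy, e⟩ := hs.intermediate_value ha hx hg ⟨h0.le, h1⟩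
    exact h y hy e

namespace Data

variable (D : Data)

/-! ### numbers -/

theorem n_ne : D.n ≠ 0 := by have := D.hn; omega

theorem one_lt_n : (1 : ℝ) < D.n := by have := D.hn; exact_mod_cast (by omega : 1 < D.n)

theorem np_pos (m : ℕ) : (0 : ℝ) < (D.n : ℝ) ^ m := pow_pos (by linarith [D.one_lt_n]) m

theorem one_le_np (m : ℕ) : (1 : ℝ) ≤ (D.n : ℝ) ^ m := one_le_pow₀ D.one_lt_n.le

theorem np_ne (m : ℕ) : (D.n : ℂ) ^ m ≠ 0 := pow_ne_zero _ (Nat.cast_ne_zero.mpr D.n_ne)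

theorem two_le_d : 2 ≤ D.d :=
  le_trans (by exact_mod_cast D.hn) (le_self_pow₀ D.one_lt_n.le D.hL.ne')

theorem d_pos : 0 < D.d := by linarith [D.two_le_d]

theorem d_cast : ((D.d : ℝ) : ℂ) = (D.n : ℂ) ^ D.L := by simp [d]

theorem div_np_re (ω : ℂ) (m : ℕ) : (ω / (D.n : ℂ) ^ m).re = ω.re / (D.n : ℝ) ^ m := by
  rw [show (D.n : ℂ) ^ m = (((D.n : ℝ) ^ m : ℝ) : ℂ) by push_cast; rfl, div_ofReal_re]

theorem div_np_im (ω : ℂ) (m : ℕ) : (ω / (D.n : ℂ) ^ m).im = ω.im / (D.n : ℝ) ^ m := by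
  rw [show (D.n : ℂ) ^ m = (((D.n : ℝ) ^ m : ℝ) : ℂ) by push_cast; rfl, div_ofReal_im]

theorem np_mul_re (ω : ℂ) (m : ℕ) : ((D.n : ℂ) ^ m * ω).re = (D.n : ℝ) ^ m * ω.re := by
  rw [show (D.n : ℂ) ^ m = (((D.n : ℝ) ^ m : ℝ) : ℂ) by push_cast; rfl, re_ofReal_mul]

theorem np_mul_im (ω : ℂ) (m : ℕ) : ((D.n : ℂ) ^ m * ω).im = (D.n : ℝ) ^ m * ω.im := by
  rw [show (D.n : ℂ) ^ m = (((D.n : ℝ) ^ m : ℝ) : ℂ) by push_cast; rfl, im_ofReal_mul]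

theorem div_np_pos {ω : ℂ} (h : 0 < ω.re) (m : ℕ) : 0 < (ω / (D.n : ℂ) ^ m).re := by
  rw [D.div_np_re]; exact div_pos h (D.np_pos m)

theorem Str_zero (θ : ℂ) : D.Str 0 θ = D.B θ '' D.Rect θ := by simp [Data.Str]

variable {D}

theorem Big.one_le {X : ℝ} (h : D.Big X) : 1 ≤ X := by linarith [h.big]

theorem Big.n_le {X : ℝ} (h : D.Big X) : (D.n : ℝ) ≤ X :=
  (le_mul_of_one_le_right (Nat.cast_nonneg _) (one_le_pow₀ (by norm_num))).trans h.lip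

theorem Big.pow_le {X : ℝ} (h : D.Big X) (j : ℕ) : X ^ j ≤ Real.exp (j * X) := by
  rw [Real.exp_nat_mul]
  exact pow_le_pow_left₀ (by linarith [h.big]) (by linarith [Real.add_one_le_exp X]) j

theorem Big.powL_le {X : ℝ} (h : D.Big X) : X ^ D.L ≤ Real.exp (X ^ 2) :=
  (h.pow_le _).trans (Real.exp_le_exp.mpr (by nlinarith [h.per, h.big]))

theorem Big.d_le {X : ℝ} (h : D.Big X) : D.d ≤ Real.exp (X ^ 2) :=
  (pow_le_pow_left₀ (Nat.cast_nonneg _) h.n_le _).trans h.powL_le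

theorem Big.gain {X : ℝ} (h : D.Big X) (j : ℕ) :
    Real.exp (j / (4 * X)) ≤ (1 + 1 / (2 * X)) ^ j := by
  have h1 := h.big
  rw [div_eq_mul_one_div, Real.exp_nat_mul]
  refine pow_le_pow_left₀ (Real.exp_pos _).le ?_ j
  have h2 : 1 / (4 * X) ≤ 1 / 2 := one_div_le_one_div_of_le (by norm_num) (by linarith)
  have h3 : 0 < 1 / (4 * X) := by positivity
  have h4 := Real.abs_exp_sub_one_le (x := 1 / (4 * X)) (by rw [abs_of_pos h3]; linarith)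
  rw [abs_of_pos h3] at h4
  have h5 : 1 / (2 * X) = 2 * (1 / (4 * X)) := by field_simp; norm_num
  linarith [(abs_le.mp h4).2]

variable (D)

/-! ### the chart -/

theorem inj : InjOn D.Φ {w | 1 < ‖w‖} := L.ii D.hn D.c D.hc D.Φ D.bot

theorem f_iter_add (i j : ℕ) (w : ℂ) : D.f^[i] (D.f^[j] w) = D.f^[i + j] w :=
  (Function.iterate_add_apply _ _ _ _).symm

theorem f_cont (j : ℕ) : Continuous D.f^[j] := (differentiable_iter D.n D.c j).continuous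

theorem iter_v (i j : ℕ) : D.f^[i] (D.v j) = D.v (j + i) := by
  rw [v, v, f_iter_add, add_comm]

theorem v_zero : D.v 0 = D.c := rfl

theorem norm_arg {τ : ℂ} (hτ : ‖τ‖ = 1) (ω : ℂ) : ‖τ * exp ω‖ = Real.exp ω.re := by
  rw [norm_mul, hτ, one_mul, norm_exp]

theorem one_lt_arg {τ ω : ℂ} (hτ : ‖τ‖ = 1) (hω : 0 < ω.re) : 1 < ‖τ * exp ω‖ := by
  rw [norm_arg hτ]; exact Real.one_lt_exp_iff.mpr hω

theorem norm_rot {τ : ℂ} (hτ : ‖τ‖ = 1) (t : ℝ) : ‖τ * exp (t * I)‖ = 1 := by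
  rw [norm_mul, hτ, one_mul, norm_exp_ofReal_mul_I]

theorem B_add (τ a b : ℂ) : D.B τ (a + b) = D.B (τ * exp a) b := by
  rw [B, B, exp_add, mul_assoc]

theorem B_polar (τ ω : ℂ) : D.B τ ω = D.B (τ * exp (ω.im * I)) (ω.re : ℝ) := by
  rw [← B_add, add_comm, re_add_im]

theorem B_iter {τ ω : ℂ} (hτ : ‖τ‖ = 1) (hω : 0 < ω.re) (j : ℕ) :
    D.f^[j] (D.B τ ω) = D.B (τ ^ D.n ^ j) ((D.n : ℂ) ^ j * ω) := by
  rw [B, ← D.bot.iter D.hn le_rfl j (one_lt_arg hτ hω), B, mul_pow, ← exp_nat_mul]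
  push_cast
  rfl

theorem B_iter_div {τ ω : ℂ} (hτ : ‖τ‖ = 1) (hω : 0 < ω.re) (j : ℕ) :
    D.f^[j] (D.B τ (ω / (D.n : ℂ) ^ j)) = D.B (τ ^ D.n ^ j) ω := by
  rw [D.B_iter hτ (by rw [div_np_re]; exact div_pos hω (D.np_pos j)),
    mul_div_cancel₀ _ (D.np_ne j)]

theorem B_iter_real {τ : ℂ} {t : ℝ} (hτ : ‖τ‖ = 1) (ht : 0 < t) (j : ℕ) :
    D.f^[j] (D.B τ t) = D.B (τ ^ D.n ^ j) (((D.n : ℝ) ^ j * t : ℝ)) := by
  rw [D.B_iter hτ (by simpa using ht)]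
  push_cast
  rfl

theorem B_inj {τ ω τ' ω' : ℂ} (hτ : ‖τ‖ = 1) (hω : 0 < ω.re) (hτ' : ‖τ'‖ = 1) (hω' : 0 < ω'.re)
    (h : D.B τ ω = D.B τ' ω') : τ * exp ω = τ' * exp ω' ∧ ω.re = ω'.re ∧
      τ * exp (ω.im * I) = τ' * exp (ω'.im * I) := by
  have h1 := D.inj (one_lt_arg hτ hω) (one_lt_arg hτ' hω') h
  have h2 := congrArg norm h1
  rw [norm_arg hτ, norm_arg hτ', Real.exp_eq_exp] at h2
  refine ⟨h1, h2, mul_right_cancel₀ (exp_ne_zero (ω.re : ℝ)) ?_⟩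
  rw [mul_assoc, ← exp_add, add_comm, re_add_im, h1, h2, mul_assoc, ← exp_add, add_comm, re_add_im]

theorem B_inj_real {τ τ' : ℂ} {t t' : ℝ} (hτ : ‖τ‖ = 1) (ht : 0 < t) (hτ' : ‖τ'‖ = 1)
    (ht' : 0 < t') (h : D.B τ t = D.B τ' t') : τ = τ' ∧ t = t' := by
  have h1 := D.B_inj hτ (by simpa using ht) hτ' (by simpa using ht') h
  simpa using h1.2.symm

theorem B_diff {τ : ℂ} (hτ : ‖τ‖ = 1) : DifferentiableOn ℂ (D.B τ) {ω | 0 < ω.re} :=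
  D.bot.diff.comp (by fun_prop) fun _ hω => one_lt_arg hτ hω

theorem B_contAt {τ ω : ℂ} (hτ : ‖τ‖ = 1) (hω : 0 < ω.re) : ContinuousAt (D.B τ) ω :=
  (D.B_diff hτ).continuousOn.continuousAt
    ((isOpen_lt continuous_const continuous_re).mem_nhds hω)

theorem B_cont_comp {X : Type*} [TopologicalSpace X] {s : Set X} {g : X → ℂ} {τ : ℂ}
    (hτ : ‖τ‖ = 1) (hg : ContinuousOn g s) (h : ∀ x ∈ s, 0 < (g x).re) :
    ContinuousOn (fun x => D.B τ (g x)) s :=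
  (D.B_diff hτ).continuousOn.comp hg h

theorem B_cont_real {τ : ℂ} (hτ : ‖τ‖ = 1) : ContinuousOn (fun t : ℝ => D.B τ t) (Ioi 0) :=
  D.B_cont_comp hτ continuous_ofReal.continuousOn fun _ ht => by simpa using ht

theorem B_mem_Bas {τ ω : ℂ} (hτ : ‖τ‖ = 1) (hω : 0 < ω.re) : D.B τ ω ∈ D.Bas :=
  ⟨_, one_lt_arg hτ hω, rfl⟩

theorem B_mem_Bas_real {τ : ℂ} {t : ℝ} (hτ : ‖τ‖ = 1) (ht : 0 < t) : D.B τ t ∈ D.Bas :=
  D.B_mem_Bas hτ (by simpa using ht)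

theorem polar {u : ℂ} (hu : 1 < ‖u‖) :
    ∃ (τ : ℂ) (t : ℝ), ‖τ‖ = 1 ∧ 0 < t ∧ ‖u‖ = Real.exp t ∧ u = τ * exp t := by
  have h0 : 0 < ‖u‖ := by linarith
  refine ⟨exp (arg u * I), Real.log ‖u‖, norm_exp_ofReal_mul_I _, Real.log_pos hu,
    (Real.exp_log h0).symm, ?_⟩
  rw [← ofReal_exp, Real.exp_log h0, mul_comm, norm_mul_exp_arg_mul_I]

theorem exists_B {w : ℂ} (hw : w ∈ D.Bas) : ∃ (τ : ℂ) (t : ℝ), ‖τ‖ = 1 ∧ 0 < t ∧ w = D.B τ t := by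
  obtain ⟨u, hu, rfl⟩ := hw
  obtain ⟨τ, t, h1, h2, -, h3⟩ := polar hu
  exact ⟨τ, t, h1, h2, by rw [B, ← h3]⟩

theorem image_open {S : Set ℂ} (hS : S ⊆ {u | 1 < ‖u‖}) (ho : IsOpen S) : IsOpen (D.Φ '' S) :=
  Q.isOpen_image_of_injOn (L.ext_open 1) D.bot.diff D.inj S hS ho

theorem Bas_open : IsOpen D.Bas := D.image_open subset_rfl (L.ext_open 1)

/-- The inverse of the chart is continuous. -/
theorem mem_closure_of_image {S : Set ℂ} (hS : S ⊆ {u | 1 < ‖u‖}) {u : ℂ} (hu : 1 < ‖u‖)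
    (h : D.Φ u ∈ closure (D.Φ '' S)) : u ∈ closure S := by
  rw [_root_.mem_closure_iff] at h ⊢
  intro o ho huo
  obtain ⟨_, ⟨x, hx, rfl⟩, y, hy, e⟩ := h _ (D.image_open (S := o ∩ {u | 1 < ‖u‖})
    inter_subset_right (ho.inter (L.ext_open 1))) ⟨u, ⟨huo, hu⟩, rfl⟩
  exact ⟨x, hx.1, D.inj (hS hy) hx.2 e ▸ hy⟩

/-- The chart is an open map. -/
theorem B_image_nhds {τ ω : ℂ} (hτ : ‖τ‖ = 1) (hω : 0 < ω.re) {S : Set ℂ} (hS : S ∈ 𝓝 ω) :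
    D.B τ '' S ∈ 𝓝 (D.B τ ω) := by
  have h0 : τ ≠ 0 := norm_ne_zero_iff.mp (by rw [hτ]; exact one_ne_zero)
  obtain ⟨o, h1, h2, h3⟩ := _root_.mem_nhds_iff.mp
    (inter_mem hS ((isOpen_lt continuous_const continuous_re).mem_nhds hω))
  have h4 : IsOpen ((fun ω => τ * exp ω) '' o) := by
    rw [show (fun ω => τ * exp ω) = (fun x => τ * x) ∘ exp from rfl, image_comp]
    exact (Homeomorph.mulLeft₀ τ h0).isOpenMap _ (isOpenMap_exp _ h2)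
  refine _root_.mem_nhds_iff.mpr ⟨_, ?_, D.image_open ?_ h4, _, ⟨ω, h3, rfl⟩, rfl⟩
  · rintro _ ⟨_, ⟨x, hx, rfl⟩, rfl⟩
    exact ⟨x, (h1 hx).1, rfl⟩
  · rintro _ ⟨x, hx, rfl⟩
    exact one_lt_arg hτ (h1 hx).2

/-- Preimages of points of the basin. -/
theorem pre_Phi (j : ℕ) {y u : ℂ} (hu : 1 < ‖u‖) (h : D.f^[j] y = D.Φ u) :
    ∃ x, 1 < ‖x‖ ∧ x ^ D.n ^ j = u ∧ y = D.Φ x := by
  induction j generalizing y with
  | zero => exact ⟨u, hu, by simp, h⟩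
  | succ j ih =>
    obtain ⟨x, h1, h2, h3⟩ := ih (y := D.f y) h
    obtain ⟨r, hr⟩ := IsAlgClosed.exists_pow_nat_eq x (Nat.pos_of_ne_zero D.n_ne)
    have h4 : 1 < ‖r‖ := by
      rw [← hr, norm_pow] at h1
      exact (one_lt_pow_iff_of_nonneg (norm_nonneg _) D.n_ne).mp h1
    have h5 : y ^ D.n = D.Φ r ^ D.n := by
      have := D.bot.conj r h4
      rw [hr, ← h3] at this
      exact add_right_cancel this
    have h6 : D.Φ r ≠ 0 := D.bot.ne_orbit D.hn D.hc le_rfl h4 0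
    have h7 : (y / D.Φ r) ^ D.n = 1 := by rw [div_pow, h5, div_self (pow_ne_zero _ h6)]
    refine ⟨y / D.Φ r * r, ?_, ?_, ?_⟩
    · rwa [norm_mul, norm_eq_one_of_pow_eq_one h7 D.n_ne, one_mul]
    · rw [pow_succ', pow_mul, mul_pow, h7, one_mul, hr, h2]
    · rw [L.UI.rot D.hn D.hc D.bot h7 h4, div_mul_cancel₀ _ h6]

theorem pre_B (j : ℕ) {y θ ω : ℂ} (hθ : ‖θ‖ = 1) (hω : 0 < ω.re) (h : D.f^[j] y = D.B θ ω) :
    ∃ τ, ‖τ‖ = 1 ∧ τ ^ D.n ^ j = θ ∧ y = D.B τ (ω / (D.n : ℂ) ^ j) := by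
  obtain ⟨x, -, h2, h3⟩ := D.pre_Phi j (one_lt_arg hθ hω) h
  have h4 : (x * exp (-(ω / (D.n : ℂ) ^ j))) ^ D.n ^ j = θ := by
    rw [mul_pow, h2, ← exp_nat_mul, mul_assoc, ← exp_add]
    push_cast
    rw [mul_neg, mul_div_cancel₀ _ (D.np_ne j), add_neg_cancel, exp_zero, mul_one]
  refine ⟨_, ?_, h4, by rw [B, mul_assoc, ← exp_add, neg_add_cancel, exp_zero, mul_one, h3]⟩
  have h5 := congrArg norm h4
  rw [norm_pow, hθ] at h5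
  exact (pow_eq_one_iff_of_nonneg (norm_nonneg _) (pow_ne_zero _ D.n_ne)).mp h5

theorem iter_mem_Bas (j : ℕ) {w : ℂ} : D.f^[j] w ∈ D.Bas ↔ w ∈ D.Bas := by
  constructor
  · rintro ⟨u, hu, e⟩
    obtain ⟨x, h1, -, h2⟩ := D.pre_Phi j hu e.symm
    exact ⟨x, h1, h2.symm⟩
  · intro hw
    obtain ⟨τ, t, h1, h2, rfl⟩ := D.exists_B hw
    rw [D.B_iter_real h1 h2]
    exact D.B_mem_Bas_real (by rw [norm_pow, h1, one_pow]) (mul_pos (D.np_pos j) h2)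

theorem Out_sub (m : ℕ) : {u : ℂ | Real.exp (1 / (D.n : ℝ) ^ m) ≤ ‖u‖} ⊆ {u | 1 < ‖u‖} :=
  fun _ hu => (Real.one_lt_exp_iff.mpr (one_div_pos.mpr (D.np_pos m))).trans_le hu

theorem Out_Bas (m : ℕ) : D.Out m ⊆ D.Bas := image_mono (D.Out_sub m)

theorem B_mem_Out {τ ω : ℂ} (hτ : ‖τ‖ = 1) (hω : 0 < ω.re) (m : ℕ) :
    D.B τ ω ∈ D.Out m ↔ 1 / (D.n : ℝ) ^ m ≤ ω.re := by
  rw [← Real.exp_le_exp, ← norm_arg hτ]
  exact ⟨fun ⟨u, hu, e⟩ => D.inj (D.Out_sub m hu) (one_lt_arg hτ hω) e ▸ hu, fun h => ⟨_, h, rfl⟩⟩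

theorem B_mem_Out_real {τ : ℂ} {t : ℝ} (hτ : ‖τ‖ = 1) (ht : 0 < t) (m : ℕ) :
    D.B τ t ∈ D.Out m ↔ 1 / (D.n : ℝ) ^ m ≤ t := by
  simpa using D.B_mem_Out (ω := t) hτ (by simpa using ht) m

theorem exists_B_Out {m : ℕ} {w : ℂ} (hw : w ∈ D.Out m) :
    ∃ (τ : ℂ) (t : ℝ), ‖τ‖ = 1 ∧ 0 < t ∧ 1 / (D.n : ℝ) ^ m ≤ t ∧ w = D.B τ t := by
  obtain ⟨τ, t, h1, h2, rfl⟩ := D.exists_B (D.Out_Bas m hw)
  exact ⟨τ, t, h1, h2, (D.B_mem_Out_real h1 h2 m).mp hw, rfl⟩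

theorem Out_mono {m m' : ℕ} (h : m ≤ m') : D.Out m ⊆ D.Out m' :=
  image_mono fun _ hu => le_trans (Real.exp_le_exp.mpr (one_div_le_one_div_of_le (D.np_pos m)
    (pow_le_pow_right₀ D.one_lt_n.le h))) hu

theorem iter_mem_Out (m j : ℕ) {w : ℂ} : D.f^[j] w ∈ D.Out m ↔ w ∈ D.Out (m + j) := by
  by_cases hw : w ∈ D.Bas
  · obtain ⟨τ, t, h1, h2, rfl⟩ := D.exists_B hw
    rw [D.B_iter_real h1 h2, D.B_mem_Out_real h1 h2, D.B_mem_Out_real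
      (by rw [norm_pow, h1, one_pow]) (mul_pos (D.np_pos j) h2), div_le_iff₀ (D.np_pos m),
      div_le_iff₀ (D.np_pos _), pow_add]
    ring_nf
  · exact iff_of_false (fun h => hw ((D.iter_mem_Bas j).mp (D.Out_Bas _ h)))
      fun h => hw (D.Out_Bas _ h)

theorem B_mem_Ray {τ σ ω : ℂ} (hτ : ‖τ‖ = 1) (hσ : ‖σ‖ = 1) (hω : 0 < ω.re) :
    D.B τ ω ∈ D.Ray σ ↔ τ * exp (ω.im * I) = σ := by
  constructor
  · rintro ⟨t, ht, e⟩
    simpa using (D.B_inj hτ hω hσ (by simpa using ht) e.symm).2.2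
  · rintro rfl
    exact ⟨ω.re, hω, (D.B_polar τ ω).symm⟩

theorem Ray_Bas {τ : ℂ} (hτ : ‖τ‖ = 1) : D.Ray τ ⊆ D.Bas := by
  rintro _ ⟨t, ht, rfl⟩
  exact D.B_mem_Bas_real hτ ht

theorem Ray_conn {τ : ℂ} (hτ : ‖τ‖ = 1) : IsPreconnected (D.Ray τ) :=
  isPreconnected_Ioi.image _ (D.B_cont_real hτ)

theorem iter_Ray {τ : ℂ} (hτ : ‖τ‖ = 1) (j : ℕ) :
    MapsTo D.f^[j] (closure (D.Ray τ)) (closure (D.Ray (τ ^ D.n ^ j))) := by
  refine MapsTo.closure ?_ (D.f_cont j)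
  rintro _ ⟨t, ht, rfl⟩
  exact ⟨_, mul_pos (D.np_pos j) ht, (D.B_iter_real hτ ht j).symm⟩

variable {D}

theorem Lands.mem_closure {τ y : ℂ} (h : D.Lands τ y) : y ∈ closure (D.Ray τ) :=
  mem_closure_of_tendsto h (eventually_nhdsWithin_of_forall fun t ht => ⟨t, ht, rfl⟩)

theorem Lands.unique {τ y y' : ℂ} (h : D.Lands τ y) (h' : D.Lands τ y') : y = y' :=
  tendsto_nhds_unique h h'

theorem tendsto_mul_pos {a : ℝ} (ha : 0 < a) :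
    Tendsto (fun t : ℝ => a * t) (𝓝[>] 0) (𝓝[>] 0) :=
  tendsto_nhdsWithin_iff.mpr ⟨tendsto_nhdsWithin_of_tendsto_nhds
    ((continuous_const_mul a).tendsto' 0 0 (mul_zero a)),
    eventually_nhdsWithin_of_forall fun _ ht => mul_pos ha ht⟩

theorem Lands.iter {τ y : ℂ} (hτ : ‖τ‖ = 1) (h : D.Lands τ y) (j : ℕ) :
    D.Lands (τ ^ D.n ^ j) (D.f^[j] y) := by
  have h1 := (((D.f_cont j).tendsto y).comp h).comp (tendsto_mul_pos (inv_pos.mpr (D.np_pos j)))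
  refine h1.congr' (eventually_nhdsWithin_of_forall fun t ht => ?_)
  simp only [Function.comp_apply]
  rw [D.B_iter_real hτ (mul_pos (inv_pos.mpr (D.np_pos j)) ht),
    mul_inv_cancel_left₀ (D.np_pos j).ne']

variable (D)

/-! ### angles -/

theorem pow_pow (τ : ℂ) (i j : ℕ) : (τ ^ D.n ^ i) ^ D.n ^ j = τ ^ D.n ^ (i + j) := by
  rw [← pow_mul, ← pow_add]

theorem ζ_mem : D.ζ ∈ D.Th := ⟨0, by simp⟩

variable {D}

theorem Th_norm {θ : ℂ} (h : θ ∈ D.Th) : ‖θ‖ = 1 := by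
  obtain ⟨i, rfl⟩ := h
  rw [norm_pow, D.nz, one_pow]

theorem Th_pow {θ : ℂ} (h : θ ∈ D.Th) (j : ℕ) : θ ^ D.n ^ j ∈ D.Th := by
  obtain ⟨i, rfl⟩ := h
  exact ⟨i + j, D.pow_pow _ _ _⟩

theorem Th_per {θ : ℂ} (h : θ ∈ D.Th) : θ ^ D.n ^ D.L = θ := by
  obtain ⟨i, rfl⟩ := h
  rw [pow_pow, add_comm, ← pow_pow, D.per]

theorem Th_per_mul {θ : ℂ} (h : θ ∈ D.Th) (a : ℕ) : θ ^ D.n ^ (a * D.L) = θ := by
  induction a with
  | zero => simp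
  | succ a ih => rw [Nat.succ_mul, ← pow_pow, ih, Th_per h]

theorem Th_mod {θ : ℂ} (h : θ ∈ D.Th) (i : ℕ) : θ ^ D.n ^ i = θ ^ D.n ^ (i % D.L) := by
  conv_lhs => rw [← Nat.div_add_mod' i D.L, ← pow_pow, Th_per_mul h]

/-- The cycle of angles is transitive. -/
theorem Th_trans {θ θ' : ℂ} (h : θ ∈ D.Th) (h' : θ' ∈ D.Th) : ∃ j < D.L, θ ^ D.n ^ j = θ' := by
  obtain ⟨i, hi⟩ := id h
  obtain ⟨i', rfl⟩ := h'
  refine ⟨(i * D.L - i + i') % D.L, Nat.mod_lt _ D.hL, ?_⟩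
  have h1 : i ≤ i * D.L := Nat.le_mul_of_pos_right i D.hL
  rw [← Th_mod h, hi, pow_pow, show i + (i * D.L - i + i') = i * D.L + i' by omega, ← pow_pow,
    Th_per_mul D.ζ_mem]

theorem Th_trans' {θ θ' : ℂ} (h : θ ∈ D.Th) (h' : θ' ∈ D.Th) :
    ∃ j, 1 ≤ j ∧ j ≤ D.L ∧ θ ^ D.n ^ j = θ' := by
  obtain ⟨j, h1, h2⟩ := Th_trans (Th_pow h 1) h'
  exact ⟨1 + j, by omega, by omega, by rw [← pow_pow, h2]⟩

theorem Th_root {θ' : ℂ} (h : θ' ∈ D.Th) (m : ℕ) : ∃ θ ∈ D.Th, θ ^ D.n ^ m = θ' := by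
  have h1 : m ≤ m * D.L := Nat.le_mul_of_pos_right m D.hL
  exact ⟨_, Th_pow h (m * D.L - m), by rw [pow_pow, Nat.sub_add_cancel h1, Th_per_mul h]⟩

variable (D)

theorem Th_finset : ∃ T : Finset ℂ, T.card ≤ D.L ∧ ∀ θ, θ ∈ T ↔ θ ∈ D.Th := by
  classical
  refine ⟨(Finset.range D.L).image fun i => D.ζ ^ D.n ^ i,
    Finset.card_image_le.trans (Finset.card_range _).le, fun θ => ?_⟩
  simp only [Finset.mem_image, Finset.mem_range]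
  exact ⟨fun ⟨i, _, e⟩ => ⟨i, e.symm⟩, fun h => Th_trans D.ζ_mem h⟩

theorem Th_fin : D.Th.Finite :=
  let ⟨T, _, h⟩ := D.Th_finset
  T.finite_toSet.subset fun θ hθ => (h θ).mpr hθ

theorem Th_ncard : D.Th.ncard ≤ D.L := by
  obtain ⟨T, h1, h⟩ := D.Th_finset
  rwa [show D.Th = T from Set.ext fun θ => (h θ).symm, ncard_coe_finset]

theorem roots_fin {N : ℕ} (hN : N ≠ 0) (a : ℂ) : {x : ℂ | x ^ N = a}.Finite ∧
    {x : ℂ | x ^ N = a}.ncard ≤ N := by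
  classical
  have h : {x : ℂ | x ^ N = a} = (Polynomial.nthRoots N a).toFinset := by
    ext x; simp [Polynomial.mem_nthRoots (Nat.pos_of_ne_zero hN)]
  rw [h, ncard_coe_finset]
  exact ⟨Finset.finite_toSet _, (Multiset.toFinset_card_le _).trans (Polynomial.card_nthRoots _ _)⟩

theorem Ang_fin (m : ℕ) : (D.Ang m).Finite :=
  (D.Th_fin.biUnion fun θ _ => (roots_fin (pow_ne_zero m D.n_ne) θ).1).subset
    fun _ hτ => mem_biUnion hτ rfl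

theorem Ang_zero : D.Ang 0 = D.Th := by ext τ; simp [Ang]

theorem Ang_add (m j : ℕ) {τ : ℂ} : τ ^ D.n ^ j ∈ D.Ang m ↔ τ ∈ D.Ang (m + j) := by
  simp only [Ang, mem_ofPred_eq, pow_pow, add_comm]

variable {D}

theorem Ang_norm {m : ℕ} {τ : ℂ} (h : τ ∈ D.Ang m) : ‖τ‖ = 1 := by
  have h1 := Th_norm h
  rw [norm_pow] at h1
  exact (pow_eq_one_iff_of_nonneg (norm_nonneg _) (pow_ne_zero _ D.n_ne)).mp h1

theorem Ang_mono {m m' : ℕ} (h : m ≤ m') : D.Ang m ⊆ D.Ang m' := fun τ hτ => by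
  obtain ⟨j, rfl⟩ := Nat.exists_eq_add_of_le h
  have := Th_pow hτ j
  rwa [pow_pow] at this

theorem Th_Ang {θ : ℂ} (h : θ ∈ D.Th) (m : ℕ) : θ ∈ D.Ang m := Th_pow h m

variable (D)

theorem Gam_mono {m m' : ℕ} (h : m ≤ m') : D.Gam m ⊆ D.Gam m' :=
  union_subset_union (D.Out_mono h) (biUnion_subset_biUnion_left (Ang_mono h))

theorem Xs_mono {m m' : ℕ} (h : m ≤ m') (y : ℂ) : D.Xs m y ⊆ D.Xs m' y :=
  union_subset_union (D.Out_mono h)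
    (biUnion_subset_biUnion_left fun _ hτ => ⟨Ang_mono h hτ.1, hτ.2⟩)

theorem Xs_Gam (m : ℕ) (y : ℂ) : D.Xs m y ⊆ D.Gam m :=
  union_subset_union_right _ (biUnion_subset_biUnion_left fun _ hτ => hτ.1)

theorem mem_Gam {m : ℕ} {w : ℂ} :
    w ∈ D.Gam m ↔ w ∈ D.Out m ∨ ∃ τ ∈ D.Ang m, w ∈ closure (D.Ray τ) := by
  simp only [Gam, mem_union, mem_iUnion, exists_prop]

theorem mem_Xs {m : ℕ} {y w : ℂ} : w ∈ D.Xs m y ↔ w ∈ D.Out m ∨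
    ∃ τ ∈ D.Ang m, y ∉ closure (D.Ray τ) ∧ w ∈ closure (D.Ray τ) := by
  simp only [Xs, mem_union, mem_iUnion, exists_prop, mem_ofPred_eq, and_assoc]

theorem Ray_Gam {m : ℕ} {τ : ℂ} (h : τ ∈ D.Ang m) : closure (D.Ray τ) ⊆ D.Gam m :=
  fun _ hw => D.mem_Gam.mpr (Or.inr ⟨τ, h, hw⟩)

theorem B_mem_closure_Ray (hR : St_RAY) {τ σ ω : ℂ} (hτ : ‖τ‖ = 1) (hσ : ‖σ‖ = 1)
    (hω : 0 < ω.re) : D.B τ ω ∈ closure (D.Ray σ) ↔ τ * exp (ω.im * I) = σ := by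
  rw [← D.B_mem_Ray hτ hσ hω]
  exact ⟨fun h => (hR D).1 σ hσ _ h (D.B_mem_Bas hτ hω), fun h => subset_closure h⟩

theorem B_mem_Gam (hR : St_RAY) {τ ω : ℂ} (hτ : ‖τ‖ = 1) (hω : 0 < ω.re) (m : ℕ) :
    D.B τ ω ∈ D.Gam m ↔ 1 / (D.n : ℝ) ^ m ≤ ω.re ∨ τ * exp (ω.im * I) ∈ D.Ang m := by
  rw [mem_Gam, D.B_mem_Out hτ hω]
  refine or_congr_right ⟨fun ⟨σ, h1, h2⟩ => ?_, fun h => ⟨_, h, ?_⟩⟩
  · rwa [(D.B_mem_closure_Ray hR hτ (Ang_norm h1) hω).mp h2]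
  · exact (D.B_mem_closure_Ray hR hτ (Ang_norm h) hω).mpr rfl

/-! ### pieces -/

theorem Pc_sub (m : ℕ) (w : ℂ) : D.Pc m w ⊆ (D.Gam m)ᶜ := connectedComponentIn_subset _ _

theorem Nb_sub (m : ℕ) (y : ℂ) : D.Nb m y ⊆ (D.Xs m y)ᶜ := connectedComponentIn_subset _ _

theorem mem_Pc {m : ℕ} {w : ℂ} (h : w ∉ D.Gam m) : w ∈ D.Pc m w := mem_connectedComponentIn h

theorem Pc_eq {m : ℕ} {w x : ℂ} (h : x ∈ D.Pc m w) : D.Pc m w = D.Pc m x :=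
  connectedComponentIn_eq h

theorem Pc_mono {m m' : ℕ} (h : m ≤ m') (w : ℂ) : D.Pc m' w ⊆ D.Pc m w :=
  connectedComponentIn_mono _ (compl_subset_compl.mpr (D.Gam_mono h))

theorem subset_Pc {m : ℕ} {w x : ℂ} {S : Set ℂ} (hS : IsPreconnected S)
    (h : ∀ y ∈ S, y ∉ D.Gam m) (hx : x ∈ S) (hw : x ∈ D.Pc m w) : S ⊆ D.Pc m w := by
  rw [D.Pc_eq hw]
  exact hS.subset_connectedComponentIn hx h

theorem subset_Nb {m : ℕ} {y x : ℂ} {S : Set ℂ} (hS : IsPreconnected S)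
    (h : ∀ w ∈ S, w ∉ D.Xs m y) (hx : x ∈ S) (hw : x ∈ D.Nb m y) : S ⊆ D.Nb m y := by
  rw [Nb, connectedComponentIn_eq hw]
  exact hS.subset_connectedComponentIn hx h

theorem Pc_Nb {m : ℕ} {y w : ℂ} (hw : w ∈ D.Nb m y) : D.Pc m w ⊆ D.Nb m y := by
  rw [Nb, connectedComponentIn_eq hw]
  exact connectedComponentIn_mono _ (compl_subset_compl.mpr (D.Xs_Gam m y))

variable {D}

/-- A point of the critical orbit and a point of the piece of `c` are in different pieces. -/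
theorem Esc.not_mem {N t : ℕ} (h : D.Esc N) (h1 : 1 ≤ t) (h2 : t ≤ N) (hv : D.v t ∉ D.Gam 0)
    {w : ℂ} (hw : w ∈ D.Y t) : w ∉ D.Y 0 := fun h0 => h t h1 h2 (by
  rw [Y, D.Pc_eq h0, ← D.Pc_eq hw]; exact D.mem_Pc hv)

theorem Esc.mono {N N' : ℕ} (h : D.Esc N) (hN : N' ≤ N) : D.Esc N' :=
  fun j h1 h2 => h j h1 (h2.trans hN)

variable (D)

/-! ### the cycle and bounded orbits -/

theorem z_mem : D.z ∈ D.Cyc := ⟨0, rfl⟩

theorem lands_z : D.Lands D.ζ D.z := D.land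

theorem z_fix : D.f^[D.L] D.z = D.z := by
  have h := D.lands_z.iter D.nz D.L
  rw [D.per] at h
  exact h.unique D.lands_z

variable {D}

theorem Cyc_iter {y : ℂ} (h : y ∈ D.Cyc) (j : ℕ) : D.f^[j] y ∈ D.Cyc := by
  obtain ⟨i, rfl⟩ := h
  exact ⟨j + i, D.f_iter_add _ _ _⟩

theorem Cyc_fix {y : ℂ} (h : y ∈ D.Cyc) : D.f^[D.L] y = y := by
  obtain ⟨i, rfl⟩ := h
  rw [f_iter_add, add_comm, ← f_iter_add, z_fix]

theorem Cyc_fix_mul {y : ℂ} (h : y ∈ D.Cyc) (a : ℕ) : D.f^[a * D.L] y = y := by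
  rw [mul_comm, Function.iterate_mul]
  exact Function.iterate_fixed (Cyc_fix h) a

theorem Cyc_inj {y y' : ℂ} (h : y ∈ D.Cyc) (h' : y' ∈ D.Cyc) {j : ℕ}
    (e : D.f^[j] y = D.f^[j] y') : y = y' := by
  have h1 : j ≤ j * D.L := Nat.le_mul_of_pos_right j D.hL
  rw [← Cyc_fix_mul h j, ← Cyc_fix_mul h' j, ← Nat.sub_add_cancel h1, ← f_iter_add, ← f_iter_add, e]

theorem Th_lands {θ : ℂ} (h : θ ∈ D.Th) : ∃ y ∈ D.Cyc, D.Lands θ y := by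
  obtain ⟨i, rfl⟩ := h
  exact ⟨_, ⟨i, rfl⟩, D.lands_z.iter D.nz i⟩

theorem Cyc_lands {y : ℂ} (h : y ∈ D.Cyc) : ∃ θ ∈ D.Th, D.Lands θ y := by
  obtain ⟨i, rfl⟩ := h
  exact ⟨_, ⟨i, rfl⟩, D.lands_z.iter D.nz i⟩

theorem Cyc_Gam {y : ℂ} (h : y ∈ D.Cyc) (m : ℕ) : y ∈ D.Gam m :=
  let ⟨_, h1, h2⟩ := Cyc_lands h
  D.Ray_Gam (Th_Ang h1 m) h2.mem_closure

theorem Cyc_rep {y : ℂ} (h : y ∈ D.Cyc) : 1 < ‖dF D.n D.c D.L y‖ := by
  obtain ⟨i, rfl⟩ := h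
  exact D.rep i

theorem dF_mul {y : ℂ} {k : ℕ} (h : D.f^[k] y = y) (a : ℕ) :
    dF D.n D.c (a * k) y = dF D.n D.c k y ^ a := by
  induction a with
  | zero => simp [dF]
  | succ a ih => rw [Nat.succ_mul, add_comm, dF_add, h, ih, pow_succ]

theorem Cyc_dF_ne {y : ℂ} (h : y ∈ D.Cyc) (j : ℕ) : dF D.n D.c j y ≠ 0 := fun h0 => by
  have h1 : j ≤ j * D.L := Nat.le_mul_of_pos_right j D.hL
  have h2 := dF_mul (Cyc_fix h) j
  rw [← Nat.add_sub_cancel' h1, dF_add, h0, mul_zero] at h2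
  have h3 := Cyc_rep h
  rw [pow_eq_zero_iff'.mp h2.symm |>.1, norm_zero] at h3
  linarith

theorem K_iter {w : ℂ} (h : w ∈ D.K) (j : ℕ) : D.f^[j] w ∈ D.K := fun i => by
  rw [f_iter_add]; exact h _

theorem K_Bas {w : ℂ} (h : w ∈ D.K) : w ∉ D.Bas := by
  rintro ⟨u, hu, rfl⟩
  have h1 := L.tendsto_pow_pow D.hn hu
  have h2 := (tendsto_norm_atTop_iff_cobounded.mpr h1).atTop_mul_pos one_pos
    (by simpa using (D.bot.norm.comp h1).norm)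
  obtain ⟨j, hj⟩ := (h2.eventually_gt_atTop 5).exists
  have h3 : u ^ D.n ^ j ≠ 0 := pow_ne_zero _ (norm_pos_iff.mp (lt_trans one_pos hu))
  rw [← norm_pow, mul_div_cancel₀ _ (norm_ne_zero_iff.mpr h3), D.bot.iter D.hn le_rfl j hu] at hj
  exact absurd (h j) (not_le.mpr hj)

theorem Cyc_K {y : ℂ} (h : y ∈ D.Cyc) : y ∈ D.K := fun j => by
  by_contra h1
  have h2 := escape_tendsto D.hn (ρ := 5) (by linarith [L.norm_le_two D.hn D.hc]) (not_le.mp h1).le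
  have h3 := h2.comp (tendsto_id.atTop_mul_const' D.hL)
  obtain ⟨a, ha⟩ := (h3.eventually_gt_atTop ‖y‖).exists
  simp only [Function.comp_apply, id] at ha
  rw [Cyc_fix_mul h a] at ha
  exact lt_irrefl _ ha

theorem Cyc_Bas {y : ℂ} (h : y ∈ D.Cyc) : y ∉ D.Bas := K_Bas (Cyc_K h)

variable (D)

theorem v_eq (j : ℕ) : D.v j = D.f^[j + 1] 0 := by
  rw [Function.iterate_succ_apply, v, show D.f 0 = D.c by simp [D.n_ne]]

theorem v_K (j : ℕ) : D.v j ∈ D.K := fun i => by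
  rw [iter_v, v_eq]
  exact (orbit_lt D.hn D.hc (by linarith [L.norm_le_two D.hn D.hc]) _).le

theorem v_Bas (j : ℕ) : D.v j ∉ D.Bas := K_Bas (D.v_K j)

theorem v_Cyc (j : ℕ) : D.v j ∉ D.Cyc := fun ⟨i, h⟩ => D.mis i j h

theorem Cyc_fin : D.Cyc.Finite := by
  refine ((finite_lt_nat D.L).image fun i => D.f^[i] D.z).subset ?_
  rintro _ ⟨i, rfl⟩
  refine ⟨i % D.L, Nat.mod_lt _ D.hL, ?_⟩
  conv_rhs => rw [← Nat.mod_add_div' i D.L, ← f_iter_add, Cyc_fix_mul D.z_mem]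

theorem pre_fin (j : ℕ) {S : Set ℂ} (hS : S.Finite) : {w | D.f^[j] w ∈ S}.Finite := by
  induction j with
  | zero => exact hS
  | succ j ih =>
    refine (ih.biUnion fun x _ => (roots_fin D.n_ne (x - D.c)).1).subset fun w hw => ?_
    exact mem_biUnion (x := D.f w) hw (by simp)

end Data

end Pool.Agent.Lib.PR95
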