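import Pool.Agent.Lib.PR95.Kit

/-! Reduction of the polynomial return time theorem to the blocks. -/

set_option autoImplicit false

open Filter Topology Set Metric Complex Bornology N62a1eb23
open scoped Real

namespace Pool.Agent.Lib.PR95

open Pool.Agent.Lib.MP_c35c17_an

namespace Main

theorem lands_iff {Φ : ℂ → ℂ} {ζ z : ℂ} : Tendsto (fun r : ℝ => Φ (r * ζ)) (𝓝[>] 1) (𝓝 z) ↔
    Tendsto (fun t : ℝ => Φ (ζ * exp t)) (𝓝[>] 0) (𝓝 z) := by
  constructor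
  · intro h
    have h2 : Tendsto Real.exp (𝓝[>] 0) (𝓝[>] 1) :=
      tendsto_nhdsWithin_iff.mpr ⟨tendsto_nhdsWithin_of_tendsto_nhds
        (Real.continuous_exp.tendsto' 0 1 Real.exp_zero),
        eventually_nhdsWithin_of_forall fun _ ht => Real.one_lt_exp_iff.mpr ht⟩
    simpa [mul_comm, Function.comp_def] using h.comp h2
  · intro h
    have h2 : Tendsto Real.log (𝓝[>] 1) (𝓝[>] 0) :=
      tendsto_nhdsWithin_iff.mpr ⟨tendsto_nhdsWithin_of_tendsto_nhds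
        (by simpa using (Real.continuousAt_log one_ne_zero).tendsto),
        eventually_nhdsWithin_of_forall fun _ ht => Real.log_pos ht⟩
    refine (h.comp h2).congr' (eventually_nhdsWithin_of_forall fun r hr => ?_)
    simp only [Function.comp_apply]
    rw [← ofReal_exp, Real.exp_log (lt_trans one_pos hr), mul_comm]

theorem lands_iter {n : ℕ} (hn : 2 ≤ n) {c : ℂ} {Φ : ℂ → ℂ} (hb : L.Bot n c 1 Φ) {ζ z : ℂ}
    (h1 : ‖ζ‖ = 1) (h : Tendsto (fun r : ℝ => Φ (r * ζ)) (𝓝[>] 1) (𝓝 z)) (j : ℕ) :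
    Tendsto (fun r : ℝ => Φ (r * ζ ^ n ^ j)) (𝓝[>] 1) (𝓝 ((F n c)^[j] z)) := by
  rw [lands_iff] at h ⊢
  have h0 : (0 : ℝ) < (n : ℝ) ^ j := pow_pos (by exact_mod_cast (by omega : 0 < n)) j
  have h2 := (((differentiable_iter n c j).continuous.tendsto z).comp h).comp
    (Data.tendsto_mul_pos (inv_pos.mpr h0))
  refine h2.congr' (eventually_nhdsWithin_of_forall fun t ht => ?_)
  simp only [Function.comp_apply]
  rw [← hb.iter hn le_rfl j (Data.one_lt_arg h1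
      (by rw [ofReal_re]; exact mul_pos (inv_pos.mpr h0) ht)),
    mul_pow, ← exp_nat_mul, ← ofReal_natCast, ← ofReal_mul, Nat.cast_pow,
    mul_inv_cancel_left₀ h0.ne']

/-- The period of the ray is polynomial in the period of the point. -/
theorem period {n : ℕ} (hn : 2 ≤ n) {c : ℂ} (hc : c ∈ multibrotSet n) {Φ : ℂ → ℂ}
    (hb : L.Bot n c 1 Φ) {k : ℕ} (hk : 0 < k) {z ζ : ℂ} (hz : (F n c)^[k] z = z) (h1 : ‖ζ‖ = 1)
    (hp : ∃ p, 0 < p ∧ ζ ^ n ^ p = ζ) (h : Tendsto (fun r : ℝ => Φ (r * ζ)) (𝓝[>] 1) (𝓝 z)) :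
    ∃ q : ℕ, 0 < q ∧ ζ ^ n ^ (q * k) = ζ ∧
      q * Real.log ‖dF n c k z‖ ≤ 8 * π * k * Real.log n := by
  classical
  obtain ⟨p, hp0, hp⟩ := hp
  set T : ℂ → ℂ := fun x => x ^ n ^ k with hT
  have hit : ∀ i, T^[i] ζ = ζ ^ n ^ (i * k) := fun i => by
    induction i with
    | zero => simp
    | succ i ih =>
      rw [Function.iterate_succ_apply', ih, Nat.succ_mul, pow_add, pow_mul ζ]
  have hpm : ∀ a, ζ ^ n ^ (p * a) = ζ := fun a => by
    induction a with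
    | zero => simp
    | succ a ih => rw [Nat.mul_succ, pow_add, pow_mul, ih, hp]
  have hper : Function.IsPeriodicPt T p ζ := (hit p).trans (hpm k)
  have hq := hper.minimalPeriod_pos hp0
  refine ⟨_, hq, (hit _).symm.trans (Function.isPeriodicPt_minimalPeriod T ζ), ?_⟩
  have h2 := Q.ply hn hb.diff (L.ii hn c hc Φ hb) hb.conj hk hz
    (T := (Finset.range (Function.minimalPeriod T ζ)).image fun i => T^[i] ζ) fun ξ hξ => by
      obtain ⟨i, -, rfl⟩ := Finset.mem_image.mp hξ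
      rw [hit]
      refine ⟨by rw [norm_pow, h1, one_pow], ⟨p, hp0, ?_⟩, ?_⟩
      · rw [← pow_mul, mul_comm, pow_mul, hp]
      · have h3 := lands_iter hn hb h1 h (i * k)
        rwa [mul_comm i k, Function.iterate_mul, Function.iterate_fixed hz, mul_comm k i] at h3
  rwa [Finset.card_image_of_injOn (by
    simpa [Finset.coe_range] using Function.iterate_injOn_Iio_minimalPeriod (f := T) (x := ζ)),
    Finset.card_range] at h2

theorem dF_mul' {n : ℕ} {c y : ℂ} {k : ℕ} (h : (F n c)^[k] y = y) (a : ℕ) :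
    dF n c (a * k) y = dF n c k y ^ a := by
  induction a with
  | zero => simp [dF]
  | succ a ih => rw [Nat.succ_mul, add_comm, dF_add, h, ih, pow_succ]

end Main

open Main in
theorem main (hFIN : St_FIN) (hBIG : St_BIG) (hMIS : St_MIS) {n : ℕ} (hn : 2 ≤ n) {c : ℂ}
    (hc : c ∈ multibrotSet n)
    (hH : c ∉ closure {c | ∃ m z, IsAttractingCycle (fun z ↦ z ^ n + c) m z}) {Φ : ℂ → ℂ}
    (hb : L.Bot n c 1 Φ) : ∃ C : ℝ, ∀ (k N : ℕ) (z ζ : ℂ), 0 < k → (F n c)^[k] z = z → ‖ζ‖ = 1 →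
      (∃ p, 0 < p ∧ ζ ^ n ^ p = ζ) → Tendsto (fun r : ℝ => Φ (r * ζ)) (𝓝[>] 1) (𝓝 z) →
      (∀ ξ : ℂ, ‖ξ‖ = 1 → (∃ p, 0 < p ∧ ξ ^ n ^ p = ξ) →
        Tendsto (fun r : ℝ => Φ (r * ξ)) (𝓝[>] 1) (𝓝 z) → ∃ i, ξ = ζ ^ n ^ i) →
      (∀ j, 1 ≤ j → j ≤ N → (F n c)^[j] c ∉ connectedComponentIn
        (closure (⋃ i : ℕ, (fun r : ℝ => Φ (r * ζ ^ n ^ i)) '' Ioi 1))ᶜ c) →
      (N : ℝ) ≤ C * (k : ℝ) ^ 206140 := by
  set H := {c : ℂ | ∃ m z, IsAttractingCycle (fun z ↦ z ^ n + c) m z} with hHdef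
  have hc2 := L.norm_le_two hn hc
  have h0H : (0 : ℂ) ∈ H := ⟨1, 0, one_pos, by simp [Function.IsPeriodicPt, Function.IsFixedPt,
    show n ≠ 0 by omega], by simp, by simp [show n - 1 ≠ 0 by omega]⟩
  have hc0 : c ≠ 0 := fun e => hH (subset_closure (e ▸ h0H))
  have hδ : 0 < infDist c H :=
    (infDist_nonneg.lt_or_eq.resolve_right fun e => hH ((mem_closure_iff_infDist_zero ⟨0, h0H⟩).mpr
      e.symm))
  have hδ' := pow_pos hδ 576
  have hone : ∀ k y, 0 < k → (F n c)^[k] y = y → 1 ≤ ‖dF n c k y‖ := fun k y hk hy =>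
    not_lt.mp fun h => hH (subset_closure ⟨k, y, hk, hy, differentiable_iter n c k y,
      by rwa [(hasDerivAt_iter n c k y).deriv]⟩)
  obtain ⟨C₁, hC₁⟩ := Q.main_bound hn
  obtain ⟨C₂, hC₂⟩ := Q.ray_bound hn
  obtain ⟨X₀, hX₀⟩ := hFIN n c hn hc hH
  obtain ⟨X₁, hX₁⟩ : ∃ X₁ : ℝ, ∀ (D : Data) (X : ℝ), D.n = n → D.c = c → D.Φ = Φ → X₁ ≤ X →
      (D.L : ℝ) ≤ X → (∀ y ∈ D.Cyc, 1 + 1 / X ≤ ‖dF D.n D.c D.L y‖) → D.Big X := by
    by_cases h : ∃ D₀ : Data, D₀.n = n ∧ D₀.c = c ∧ D₀.Φ = Φ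
    · obtain ⟨D₀, rfl, rfl, rfl⟩ := h
      exact hBIG D₀ hc0
    · exact ⟨0, fun D _ e1 e2 e3 => absurd ⟨D, e1, e2, e3⟩ h⟩
  set A : ℝ := max (max (max X₀ X₁) 1) (max C₁ C₂ / infDist c H ^ 576) with hA
  have hA1 : 1 ≤ A := (le_max_right _ _).trans (le_max_left _ _)
  have hA2 : max C₁ C₂ ≤ A * infDist c H ^ 576 := (div_le_iff₀ hδ').mp (le_max_right _ _)
  refine ⟨2 * A ^ 110, fun k N z ζ hk hz h1 hp hl honly hesc => ?_⟩
  obtain ⟨q, hq, hq1, hq2⟩ := period hn hc hb hk hz h1 hp hl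
  have hk1 : (1 : ℝ) ≤ k := by exact_mod_cast hk
  have hfix : ∀ i, (F n c)^[k] ((F n c)^[i] z) = (F n c)^[i] z := fun i => by
    rw [← Function.iterate_add_apply, add_comm, Function.iterate_add_apply, hz]
  set X : ℝ := A * (k : ℝ) ^ 1874 with hX
  have hAX : A ≤ X := le_mul_of_one_le_right (by linarith) (one_le_pow₀ hk1)
  have hX0 : 0 < X := by linarith
  have hm : ∀ i, 1 + 1 / X ≤ ‖dF n c k ((F n c)^[i] z)‖ := fun i => by
    have h2 := hC₁ c hc2 k _ hk (hfix i) (hone k _ hk (hfix i))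
    have h3 := sub_nonneg.mpr (hone k _ hk (hfix i))
    rw [← le_sub_iff_add_le', div_le_iff₀ hX0]
    refine le_of_mul_le_mul_left ?_ hδ'
    have h4 : C₁ * (k : ℝ) ^ 1872 ≤ infDist c H ^ 576 * X := by
      calc C₁ * (k : ℝ) ^ 1872 ≤ A * infDist c H ^ 576 * (k : ℝ) ^ 1874 :=
            mul_le_mul ((le_max_left _ _).trans hA2) (pow_le_pow_right₀ hk1 (by norm_num))
              (by positivity) (by positivity)
        _ = _ := by rw [hX]; ring
    calc _ = infDist c H ^ 576 := mul_one _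
      _ ≤ _ := h2
      _ ≤ infDist c H ^ 576 * X * (‖dF n c k ((F n c)^[i] z)‖ - 1) :=
          mul_le_mul_of_nonneg_right h4 h3
      _ = _ := by ring
  have hlt : ∀ i, 1 < ‖dF n c k ((F n c)^[i] z)‖ := fun i =>
    lt_of_lt_of_le (by linarith [one_div_pos.mpr hX0]) (hm i)
  have hmL : ∀ i, 1 + 1 / X ≤ ‖dF n c (q * k) ((F n c)^[i] z)‖ := fun i => by
    rw [dF_mul' (hfix i), norm_pow]
    exact (hm i).trans (le_self_pow₀ (hlt i).le hq.ne')
  let D : Data := ⟨n, q * k, c, Φ, ζ, z, hn, Nat.mul_pos hq hk, hc, hb, h1, hq1, lands_iff.mp hl,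
    fun i => lt_of_lt_of_le (by linarith [one_div_pos.mpr hX0]) (hmL i),
    fun i j e => hH (hMIS n c _ k j hn hc hk (hfix i) (hlt i) e)⟩
  have hL : ((q * k : ℕ) : ℝ) ≤ X := by
    have h2 := hC₂ c hc2 k q z hk hz hq2
    have h3 : (q : ℝ) ≤ A * (k : ℝ) ^ 1873 := by
      refine le_of_mul_le_mul_right (h2.trans ?_) hδ'
      calc C₂ * (k : ℝ) ^ 1873 ≤ A * infDist c H ^ 576 * (k : ℝ) ^ 1873 :=
            mul_le_mul_of_nonneg_right ((le_max_right _ _).trans hA2) (by positivity)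
        _ = _ := by ring
    rw [Nat.cast_mul, hX, pow_succ (k : ℝ) 1873, ← mul_assoc]
    exact mul_le_mul_of_nonneg_right h3 (by linarith)
  have hbig : D.Big X := hX₁ D X rfl rfl rfl
    (((le_max_right _ _).trans (le_max_left _ _)).trans ((le_max_left _ _).trans hAX)) hL
    (by rintro _ ⟨i, rfl⟩; exact hmL i)
  have h2 := hX₀ D X N rfl rfl
    (((le_max_left _ _).trans (le_max_left _ _)).trans ((le_max_left _ _).trans hAX)) hbig
    (fun j h3 h4 h5 => hesc j h3 h4 (connectedComponentIn_mono c (compl_subset_compl.mpr ?_) h5))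
    fun ξ h3 h4 h5 => honly ξ h3 h4 (lands_iff.mpr h5)
  · calc (N : ℝ) ≤ 2 * X ^ 110 := h2
      _ = _ := by rw [hX, mul_pow, ← pow_mul, mul_assoc]
  · obtain ⟨T, -, hT⟩ := D.Th_finset
    refine (closure_minimal (iUnion_subset fun i => ?_) (t := ⋃ θ ∈ D.Th, closure (D.Ray θ))
      (D.Th_fin.isClosed_biUnion fun _ _ => isClosed_closure)).trans
      (iUnion₂_subset fun θ hθ => D.Ray_Gam (Data.Th_Ang hθ 0))
    rintro _ ⟨r, hr, rfl⟩
    refine mem_biUnion (x := ζ ^ n ^ i) ⟨i, rfl⟩ (subset_closure ⟨Real.log r, Real.log_pos hr, ?_⟩)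
    simp only [Data.B]
    rw [← ofReal_exp, Real.exp_log (lt_trans one_pos hr), mul_comm]

end Pool.Agent.Lib.PR95
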